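import Mathlib

open Finset Matrix

namespace Pool.Agent.Helper86.LP

theorem det_expand {n k : ℕ} (U : Matrix (Fin n) (Fin k) ℝ) (d : Fin n → ℝ) :
    (Uᵀ * Matrix.diagonal d * U).det
      = ∑ f : Fin k → Fin n, (∏ a, d (f a)) * (∏ a, U (f a) a) * (U.submatrix f id).det := by
  have h1 : Uᵀ * Matrix.diagonal d * U = fun a => ∑ i : Fin n, (U i a * d i) • U i := by
    funext a
    ext b
    rw [Matrix.mul_apply, Finset.sum_apply]
    apply Finset.sum_congr rfl
    intro i _
    rw [Matrix.mul_diagonal, Matrix.transpose_apply, Pi.smul_apply, smul_eq_mul]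
  rw [h1]
  have h2 := MultilinearMap.map_sum (Matrix.detRowAlternating (n := Fin k) (R := ℝ)).toMultilinearMap
    (fun a (i : Fin n) => (U i a * d i) • U i)
  have h3 : Matrix.det (fun a => ∑ i : Fin n, (U i a * d i) • U i)
      = ∑ f : Fin k → Fin n, Matrix.det (fun a => (U (f a) a * d (f a)) • U (f a)) := h2
  rw [h3]
  apply Finset.sum_congr rfl
  intro f _
  have h4 := MultilinearMap.map_smul_univ
    (Matrix.detRowAlternating (n := Fin k) (R := ℝ)).toMultilinearMap
    (fun a => U (f a) a * d (f a)) (fun a => U (f a))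
  have h5 : Matrix.det (fun a => (U (f a) a * d (f a)) • U (f a))
      = (∏ a, U (f a) a * d (f a)) * (U.submatrix f id).det := h4
  rw [h5, Finset.prod_mul_distrib]
  ring

/-- A symmetric form of the Cauchy-Binet formula. -/
theorem cauchy_binet {n k : ℕ} (U : Matrix (Fin n) (Fin k) ℝ) (d : Fin n → ℝ) :
    (Nat.factorial k : ℝ) * (Uᵀ * Matrix.diagonal d * U).det
      = ∑ f : Fin k → Fin n, (∏ a, d (f a)) * (U.submatrix f id).det ^ 2 := by
  have h1 : ∀ σ : Equiv.Perm (Fin k), (Uᵀ * Matrix.diagonal d * U).det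
      = ∑ f : Fin k → Fin n, (∏ a, d (f a)) * (((Equiv.Perm.sign σ : ℤ) : ℝ) *
        ∏ a, (U.submatrix f id) (σ a) a) * (U.submatrix f id).det := by
    intro σ
    rw [det_expand]
    rw [← Equiv.sum_comp (Equiv.arrowCongr σ.symm (Equiv.refl (Fin n)))
      (fun f : Fin k → Fin n => (∏ a, d (f a)) * (∏ a, U (f a) a) * (U.submatrix f id).det)]
    apply Finset.sum_congr rfl
    intro f _
    have e1 : (Equiv.arrowCongr σ.symm (Equiv.refl (Fin n))) f = fun a => f (σ a) := by
      funext a
      simp [Equiv.arrowCongr]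
    rw [e1]
    have e2 : ∏ a, d (f (σ a)) = ∏ a, d (f a) := Equiv.prod_comp σ (fun a => d (f a))
    have e3 : (U.submatrix (fun a => f (σ a)) id).det
        = ((Equiv.Perm.sign σ : ℤ) : ℝ) * (U.submatrix f id).det := by
      have := Matrix.det_permute σ (U.submatrix f id)
      rw [← this]
      rfl
    rw [e2, e3]
    simp only [Matrix.submatrix_apply, id]
    ring
  have h2 : ∑ σ : Equiv.Perm (Fin k), (Uᵀ * Matrix.diagonal d * U).det
      = (Nat.factorial k : ℝ) * (Uᵀ * Matrix.diagonal d * U).det := by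
    rw [Finset.sum_const, Finset.card_univ, Fintype.card_perm, Fintype.card_fin, nsmul_eq_mul]
  rw [← h2, Finset.sum_congr rfl (fun σ _ => h1 σ), Finset.sum_comm]
  apply Finset.sum_congr rfl
  intro f _
  rw [← Finset.sum_mul, ← Finset.mul_sum, sq, ← mul_assoc]
  congr 2
  rw [Matrix.det_apply']

end Pool.Agent.Helper86.LP
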