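import Pool.Agent.Helper86.LP.Gamma

open Set MeasureTheory Filter Topology
open scoped ENNReal

namespace Pool.Agent.Helper86.LP

/-- Convexity of log-sum-exp. -/
theorem logSumExp_le {κ : Type*} [Fintype κ] [Nonempty κ] (a b : κ → ℝ) {l m : ℝ} (hl : 0 < l)
    (hm : 0 < m) (hlm : l + m = 1) :
    Real.log (∑ j, Real.exp (l * a j + m * b j))
      ≤ l * Real.log (∑ j, Real.exp (a j)) + m * Real.log (∑ j, Real.exp (b j)) := by
  set A := ∑ j, Real.exp (a j) with hA
  set B := ∑ j, Real.exp (b j) with hB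
  have hpos : ∀ f : κ → ℝ, 0 < ∑ j, Real.exp (f j) := fun f =>
    Finset.sum_pos (fun j _ => Real.exp_pos _) Finset.univ_nonempty
  have hA0 : 0 < A := hpos a
  have hB0 : 0 < B := hpos b
  rw [Real.log_le_iff_le_exp (hpos _), Real.exp_add, mul_comm l, mul_comm m, ← Real.rpow_def_of_pos hA0,
    ← Real.rpow_def_of_pos hB0]
  have h1 : ∀ j, Real.exp (l * a j + m * b j)
      ≤ A ^ l * B ^ m * (l * (Real.exp (a j) / A) + m * (Real.exp (b j) / B)) := by
    intro j
    have h2 := Real.geom_mean_le_arith_mean2_weighted (p₁ := Real.exp (a j) / A)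
      (p₂ := Real.exp (b j) / B) hl.le hm.le (by positivity) (by positivity) hlm
    rw [Real.div_rpow (Real.exp_pos _).le hA0.le, Real.div_rpow (Real.exp_pos _).le hB0.le,
      ← Real.exp_mul, ← Real.exp_mul, div_mul_div_comm, ← Real.exp_add,
      div_le_iff₀ (by positivity)] at h2
    calc Real.exp (l * a j + m * b j) = Real.exp (a j * l + b j * m) := by ring_nf
      _ ≤ _ := h2
      _ = _ := by ring
  calc ∑ j, Real.exp (l * a j + m * b j)
      ≤ ∑ j, A ^ l * B ^ m * (l * (Real.exp (a j) / A) + m * (Real.exp (b j) / B)) :=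
        Finset.sum_le_sum fun j _ => h1 j
    _ = A ^ l * B ^ m * (l * (A / A) + m * (B / B)) := by
        rw [← Finset.mul_sum, Finset.sum_add_distrib, ← Finset.mul_sum, ← Finset.mul_sum,
          ← Finset.sum_div, ← Finset.sum_div]
    _ = A ^ l * B ^ m := by
        rw [div_self hA0.ne', div_self hB0.ne', mul_one, mul_one, hlm, mul_one]

variable {Ω : Type*} {ι κ : Type*}

/-- Repeating each function of the family. -/
theorem lc_dup [MeasurableSpace Ω] [Fintype ι] [Fintype κ] [Nonempty κ] (μ : Measure Ω)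
    {q : ι → Ω → ℝ} (hq : ∀ i x, 0 ≤ q i x)
    {l m : ℝ} (hl : 0 < l) (hm : 0 < m) (hlm : l + m = 1)
    (h0 : LC l m (fun τ : ι → ℝ =>
      ∫⁻ x, ∏ i, ENNReal.ofReal (Real.exp (-(Real.exp (τ i) * q i x))) ∂μ)) :
    LC l m (fun τ : ι × κ → ℝ =>
      ∫⁻ x, ∏ i, ENNReal.ofReal (Real.exp (-(Real.exp (τ i) * q i.1 x))) ∂μ) := by
  set Φ : (ι → ℝ) → ℝ≥0∞ := fun τ : ι → ℝ =>
      ∫⁻ x, ∏ i, ENNReal.ofReal (Real.exp (-(Real.exp (τ i) * q i x))) ∂μ with hΦ
  set s : (ι × κ → ℝ) → ι → ℝ := fun τ i => Real.log (∑ j, Real.exp (τ (i, j))) with hs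
  have hpos : ∀ f : κ → ℝ, 0 < ∑ j, Real.exp (f j) := fun f =>
    Finset.sum_pos (fun j _ => Real.exp_pos _) Finset.univ_nonempty
  have h1 : ∀ τ : ι × κ → ℝ,
      ∫⁻ x, ∏ i, ENNReal.ofReal (Real.exp (-(Real.exp (τ i) * q i.1 x))) ∂μ = Φ (s τ) := by
    intro τ
    apply lintegral_congr
    intro x
    rw [Fintype.prod_prod_type]
    apply Finset.prod_congr rfl
    intro i _
    rw [← ENNReal.ofReal_prod_of_nonneg (fun _ _ => (Real.exp_pos _).le), ← Real.exp_sum,
      Finset.sum_neg_distrib]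
    simp only [hs]
    rw [← Finset.sum_mul, Real.exp_log (hpos _)]
  have hanti : ∀ σ σ' : ι → ℝ, (∀ i, σ i ≤ σ' i) → Φ σ' ≤ Φ σ := by
    intro σ σ' h
    apply lintegral_mono
    intro x
    apply Finset.prod_le_prod'
    intro i _
    apply ENNReal.ofReal_le_ofReal
    apply Real.exp_le_exp.2
    apply neg_le_neg
    exact mul_le_mul_of_nonneg_right (Real.exp_le_exp.2 (h i)) (hq i x)
  intro a b
  simp only [h1]
  refine (h0 (s a) (s b)).trans (hanti _ _ ?_)
  intro i
  simp only [hs, Pi.add_apply, Pi.smul_apply, smul_eq_mul]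
  exact logSumExp_le (fun j => a (i, j)) (fun j => b (i, j)) hl hm hlm

end Pool.Agent.Helper86.LP
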