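import Pool.Agent.Helper86.LP.Riemann
import Pool.Agent.Helper86.LP.Dup

open Set MeasureTheory Filter Topology
open scoped ENNReal

namespace Pool.Agent.Helper86.LP

/-- The approximation of `exp (-y^(1/β))`. -/
noncomputable def gN (β : ℝ) (N : ℕ) (y : ℝ) : ℝ :=
  Real.exp (-((CC β)⁻¹ * ((1 / ((N : ℝ) + 1)) *
      ∑ j ∈ Finset.range ((N + 1) ^ 2), phi β y (((j : ℝ) + 1) / ((N : ℝ) + 1)))))

theorem gN_tendsto {β y : ℝ} (hβ : 1 < β) (hy : 0 ≤ y) :
    Tendsto (fun N => gN β N y) atTop (𝓝 (Real.exp (-(y ^ (1 / β))))) := by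
  have hC := CC_pos hβ
  unfold gN
  apply (Real.continuous_exp.tendsto _).comp
  apply Tendsto.neg
  rcases hy.eq_or_lt with h0 | hy0
  · subst h0
    have h1 : (0 : ℝ) ^ (1 / β) = 0 := Real.zero_rpow (by positivity)
    rw [h1]
    simp [phi]
  · have h1 := (riemann_tendsto hβ hy0).const_mul (CC β)⁻¹
    have h2 : (CC β)⁻¹ * (y ^ (1 / β) * CC β) = y ^ (1 / β) := by field_simp
    rw [h2] at h1
    exact h1

theorem gN_le {β y : ℝ} (hβ : 1 < β) (hy : 0 ≤ y) {A N : ℕ} (hA : 0 < A) (hAN : A ≤ N + 1)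
    {R : ℝ} (hR : R ≤ (CC β)⁻¹ * A) : gN β N y ≤ (1 + y * (A : ℝ) ^ (-β)) ^ (-R) := by
  have hβ0 : 0 < β := by linarith
  have hC := CC_pos hβ
  have hN : (0 : ℝ) < (N : ℝ) + 1 := by positivity
  have hA0 : (0 : ℝ) < A := by exact_mod_cast hA
  have h1 : (A * (N + 1) : ℝ) * phi β y A ≤
      ∑ j ∈ Finset.range ((N + 1) ^ 2), phi β y (((j : ℝ) + 1) / ((N : ℝ) + 1)) := by
    have h2 : ∑ j ∈ Finset.range (A * (N + 1)), phi β y (((j : ℝ) + 1) / ((N : ℝ) + 1))
        ≤ ∑ j ∈ Finset.range ((N + 1) ^ 2), phi β y (((j : ℝ) + 1) / ((N : ℝ) + 1)) := by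
      apply Finset.sum_le_sum_of_subset_of_nonneg
      · apply Finset.range_subset_range.2
        nlinarith
      · intro j _ _
        exact phi_nonneg hy (by positivity)
    refine le_trans ?_ h2
    have h3 : (A * (N + 1) : ℝ) * phi β y A
        = ∑ j ∈ Finset.range (A * (N + 1)), phi β y A := by
      rw [Finset.sum_const, Finset.card_range, nsmul_eq_mul]
      push_cast
      ring
    rw [h3]
    apply Finset.sum_le_sum
    intro j hj
    rw [Finset.mem_range] at hj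
    apply phi_anti hβ0 hy
    · exact (by positivity : (0 : ℝ) < ((j : ℝ) + 1) / ((N : ℝ) + 1))
    · exact hA0
    · rw [div_le_iff₀ hN]
      have : (j : ℝ) + 1 ≤ (A * (N + 1) : ℕ) := by exact_mod_cast hj
      push_cast at this
      exact this
  have hφ : 0 ≤ phi β y A := phi_nonneg hy hA0.le
  have h4 : (A : ℝ) * phi β y A ≤ (1 / ((N : ℝ) + 1)) *
      ∑ j ∈ Finset.range ((N + 1) ^ 2), phi β y (((j : ℝ) + 1) / ((N : ℝ) + 1)) := by
    rw [one_div, inv_mul_eq_div, le_div_iff₀ hN]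
    linarith
  have hpos : 0 < 1 + y * (A : ℝ) ^ (-β) := by positivity
  unfold gN
  rw [Real.rpow_def_of_pos hpos]
  apply Real.exp_le_exp.2
  have h5 : R * phi β y A ≤ (CC β)⁻¹ * ((1 / ((N : ℝ) + 1)) *
      ∑ j ∈ Finset.range ((N + 1) ^ 2), phi β y (((j : ℝ) + 1) / ((N : ℝ) + 1))) := by
    calc R * phi β y A ≤ (CC β)⁻¹ * A * phi β y A := mul_le_mul_of_nonneg_right hR hφ
      _ = (CC β)⁻¹ * (A * phi β y A) := by ring
      _ ≤ _ := mul_le_mul_of_nonneg_left h4 (inv_pos.2 hC).le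
  have h6 : Real.log (1 + y * (A : ℝ) ^ (-β)) * -R = -(R * phi β y A) := by
    unfold phi; ring
  rw [h6]
  linarith

theorem prod_eq_gN {β q t : ℝ} (hβ : 1 < β) (hq : 0 ≤ q) (N : ℕ) :
    ∏ j : Fin ((N + 1) ^ 2), ENNReal.ofReal
      ((1 + Real.exp (β * t - β * Real.log (((j : ℕ) + 1 : ℝ) / ((N : ℝ) + 1))) * q)
        ^ (-((CC β)⁻¹ * (1 / ((N : ℝ) + 1)))))
    = ENNReal.ofReal (gN β N (Real.exp (β * t) * q)) := by
  have hN : (0 : ℝ) < (N : ℝ) + 1 := by positivity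
  rw [← ENNReal.ofReal_prod_of_nonneg (fun _ _ => by positivity)]
  congr 1
  unfold gN
  have h1 : ∀ j : ℕ, (1 + Real.exp (β * t - β * Real.log (((j : ℕ) + 1 : ℝ) / ((N : ℝ) + 1))) * q)
        ^ (-((CC β)⁻¹ * (1 / ((N : ℝ) + 1))))
      = Real.exp (-((CC β)⁻¹ * (1 / ((N : ℝ) + 1)) *
        phi β (Real.exp (β * t) * q) (((j : ℝ) + 1) / ((N : ℝ) + 1)))) := by
    intro j
    rw [Real.rpow_def_of_pos (by positivity)]
    congr 1
    unfold phi
    have h2 : Real.exp (β * t - β * Real.log (((j : ℕ) + 1 : ℝ) / ((N : ℝ) + 1)))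
        = Real.exp (β * t) * (((j : ℝ) + 1) / ((N : ℝ) + 1)) ^ (-β) := by
      rw [Real.rpow_def_of_pos (by positivity), ← Real.exp_add]
      congr 1
      ring
    rw [h2]
    ring_nf
  refine (Fintype.prod_congr _ _ (fun j : Fin ((N + 1) ^ 2) => h1 (j : ℕ))).trans ?_
  rw [← Real.exp_sum]
  congr 1
  rw [Finset.sum_neg_distrib, ← Finset.mul_sum,
    Fin.sum_univ_eq_sum_range (fun j => phi β (Real.exp (β * t) * q)
      (((j : ℝ) + 1) / ((N : ℝ) + 1)))]
  ring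

variable {Ω ι : Type*}

theorem lc_limit [MeasurableSpace Ω] [Fintype ι] (μ : Measure Ω) [SFinite μ] {q : ι → Ω → ℝ}
    (hqm : ∀ i, Measurable (q i)) (hq : ∀ i x, 0 ≤ q i x)
    {l m : ℝ} (hl : 0 < l) (hm : 0 < m) (hlm : l + m = 1) {α : ℝ} (hα0 : 0 < α) (hα1 : α < 1)
    (hint : ∃ R : ℝ, ∀ d : ι → ℝ, (∀ i, 0 < d i) →
      ∫⁻ x, ∏ i, ENNReal.ofReal ((1 + d i * q i x) ^ (-R)) ∂μ ≠ ∞)
    (h0 : LC l m (fun τ : ι → ℝ =>
      ∫⁻ x, ∏ i, ENNReal.ofReal (Real.exp (-(Real.exp (τ i) * q i x))) ∂μ)) :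
    LC l m (fun τ : ι → ℝ =>
      ∫⁻ x, ∏ i, ENNReal.ofReal (Real.exp (-(Real.exp (τ i) * q i x ^ α))) ∂μ) := by
  obtain ⟨R, hR⟩ := hint
  set β : ℝ := 1 / α with hβdef
  have hβ : 1 < β := by rw [hβdef, lt_div_iff₀ hα0]; linarith
  have hβ0 : 0 < β := by linarith
  have hC := CC_pos hβ
  have hβα : 1 / β = α := by rw [hβdef]; field_simp
  -- choose `A`
  obtain ⟨A, hA0, hAR⟩ : ∃ A : ℕ, 0 < A ∧ R ≤ (CC β)⁻¹ * A := by
    obtain ⟨A, hA⟩ := exists_nat_gt (R * CC β)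
    refine ⟨A + 1, Nat.succ_pos _, ?_⟩
    rw [inv_mul_eq_div, le_div_iff₀ hC]
    push_cast
    linarith
  set Ψ : (ι → ℝ) → ℝ≥0∞ := fun τ =>
    ∫⁻ x, ∏ i, ENNReal.ofReal (Real.exp (-(Real.exp (τ i) * q i x ^ α))) ∂μ with hΨ
  set ΨN : ℕ → (ι → ℝ) → ℝ≥0∞ := fun N τ =>
    ∫⁻ x, ∏ i, ENNReal.ofReal (gN β N (Real.exp (β * τ i) * q i x)) ∂μ with hΨN
  have hgNm : ∀ (N : ℕ), Measurable (gN β N) := by
    intro N
    unfold gN
    refine (Measurable.const_mul (Measurable.const_mul ?_ _) _).neg.exp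
    refine Finset.measurable_sum _ fun j _ => ?_
    unfold phi
    exact ((measurable_id.mul_const _).const_add 1).log
  -- log-concavity of the approximations
  have hLCN : ∀ N, LC l m (ΨN N) := by
    intro N
    have hne : Nonempty (Fin ((N + 1) ^ 2)) := ⟨⟨0, by positivity⟩⟩
    have h1 := lc_dup (κ := Fin ((N + 1) ^ 2)) μ hq hl hm hlm h0
    have h2 := lc_step μ (q := fun (i : ι × Fin ((N + 1) ^ 2)) x => q i.1 x)
      (fun i => hqm i.1) (fun i x => hq i.1 x)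
      (c := fun _ => (CC β)⁻¹ * (1 / ((N : ℝ) + 1))) (fun _ => by positivity) hl hm hlm h1
    set T : (ι → ℝ) → (ι × Fin ((N + 1) ^ 2)) → ℝ := fun τ i =>
      β * τ i.1 - β * Real.log (((i.2 : ℕ) + 1 : ℝ) / ((N : ℝ) + 1)) with hT
    have h3 : ∀ τ, ΨN N τ = ∫⁻ x, ∏ i : ι × Fin ((N + 1) ^ 2), ENNReal.ofReal
        ((1 + Real.exp (T τ i) * q i.1 x) ^ (-((CC β)⁻¹ * (1 / ((N : ℝ) + 1))))) ∂μ := by
      intro τ
      apply lintegral_congr
      intro x
      rw [Fintype.prod_prod_type]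
      apply Finset.prod_congr rfl
      intro i _
      rw [← prod_eq_gN hβ (hq i x) N]
    have h4 : ∀ a b : ι → ℝ, T (l • a + m • b) = l • T a + m • T b := by
      intro a b
      funext i
      simp only [hT, Pi.add_apply, Pi.smul_apply, smul_eq_mul]
      have hm' : m = 1 - l := by linarith
      rw [hm']
      ring
    intro a b
    rw [h3, h3, h3, h4]
    exact h2 (T a) (T b)
  -- domination
  set d : (ι → ℝ) → ι → ℝ := fun τ i => Real.exp (β * τ i) * (A : ℝ) ^ (-β) with hd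
  have hA0' : (0 : ℝ) < A := by exact_mod_cast hA0
  have hd0 : ∀ τ i, 0 < d τ i := fun τ i => by
    simp only [hd]; positivity
  have hdom : ∀ (N : ℕ), A ≤ N + 1 → ∀ (τ : ι → ℝ) (x : Ω),
      ∏ i, ENNReal.ofReal (gN β N (Real.exp (β * τ i) * q i x))
        ≤ ∏ i, ENNReal.ofReal ((1 + d τ i * q i x) ^ (-R)) := by
    intro N hN τ x
    apply Finset.prod_le_prod'
    intro i _
    apply ENNReal.ofReal_le_ofReal
    have h1 := gN_le (y := Real.exp (β * τ i) * q i x) hβ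
      (mul_nonneg (Real.exp_pos _).le (hq i x)) hA0 hN hAR
    refine h1.trans (le_of_eq ?_)
    simp only [hd]
    ring_nf
  have hlimpt : ∀ (τ : ι → ℝ) (x : Ω), Tendsto
      (fun N => ∏ i, ENNReal.ofReal (gN β N (Real.exp (β * τ i) * q i x))) atTop
      (𝓝 (∏ i, ENNReal.ofReal (Real.exp (-(Real.exp (τ i) * q i x ^ α))))) := by
    intro τ x
    have h1 : Tendsto (fun N => ENNReal.ofReal (∏ i, gN β N (Real.exp (β * τ i) * q i x))) atTop
        (𝓝 (ENNReal.ofReal (∏ i, Real.exp (-(Real.exp (τ i) * q i x ^ α))))) := by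
      apply ENNReal.tendsto_ofReal
      apply tendsto_finsetProd
      intro i _
      have h2 := gN_tendsto (y := Real.exp (β * τ i) * q i x) hβ
        (mul_nonneg (Real.exp_pos _).le (hq i x))
      have h3 : (Real.exp (β * τ i) * q i x) ^ (1 / β) = Real.exp (τ i) * q i x ^ α := by
        rw [hβα, Real.mul_rpow (Real.exp_pos _).le (hq i x), ← Real.exp_mul]
        congr 2
        rw [hβdef]
        field_simp
      rw [h3] at h2
      exact h2
    rw [ENNReal.ofReal_prod_of_nonneg (fun _ _ => (Real.exp_pos _).le)] at h1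
    refine h1.congr fun N => ?_
    rw [ENNReal.ofReal_prod_of_nonneg]
    intro i _
    exact (Real.exp_pos _).le
  have hlim : ∀ τ : ι → ℝ, Tendsto (fun n => ΨN (n + A) τ) atTop (𝓝 (Ψ τ)) := by
    intro τ
    simp only [hΨN, hΨ]
    apply tendsto_lintegral_of_dominated_convergence
      (bound := fun x => ∏ i, ENNReal.ofReal ((1 + d τ i * q i x) ^ (-R)))
    · intro n
      refine Finset.measurable_prod _ fun i _ => ?_
      exact ((hgNm _).comp ((hqm i).const_mul _)).ennreal_ofReal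
    · intro n
      exact Eventually.of_forall fun x => hdom (n + A) (by omega) τ x
    · exact hR (d τ) (hd0 τ)
    · exact Eventually.of_forall fun x => (hlimpt τ x).comp (tendsto_add_atTop_nat A)
  have hfin : ∀ τ, Ψ τ ≠ ∞ := by
    intro τ
    have h1 : Ψ τ ≤ ∫⁻ x, ∏ i, ENNReal.ofReal ((1 + d τ i * q i x) ^ (-R)) ∂μ := by
      apply lintegral_mono
      intro x
      exact le_of_tendsto (hlimpt τ x) (eventually_atTop.2 ⟨A, fun N hN => hdom N (by omega) τ x⟩)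
    exact (h1.trans_lt (lt_top_iff_ne_top.2 (hR (d τ) (hd0 τ)))).ne
  intro a b
  have hL : Tendsto (fun n => ΨN (n + A) a ^ l * ΨN (n + A) b ^ m) atTop
      (𝓝 (Ψ a ^ l * Ψ b ^ m)) := by
    refine ENNReal.Tendsto.mul ((hlim a).ennrpow_const l) (Or.inr ?_)
      ((hlim b).ennrpow_const m) (Or.inr ?_)
    · exact ENNReal.rpow_ne_top_of_nonneg hm.le (hfin b)
    · exact ENNReal.rpow_ne_top_of_nonneg hl.le (hfin a)
  exact le_of_tendsto_of_tendsto' hL (hlim (l • a + m • b)) fun n => hLCN (n + A) a b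

end Pool.Agent.Helper86.LP
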