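import Pool.Agent.Helper86.LP.Defs
import Pool.Agent.Helper86.LP.Limit

open Set MeasureTheory Filter Topology Module
open scoped ENNReal

namespace Pool.Agent.Helper86.LP

variable {n : ℕ}

/-- The integral of the exponential over the subspace. -/
noncomputable def Phi (q : ℝ) (H : Submodule ℝ (EuclideanSpace ℝ (Fin n))) (τ : Fin n → ℝ) :
    ℝ≥0∞ :=
  ∫⁻ x : H, ∏ i, ENNReal.ofReal
    (Real.exp (-(Real.exp (τ i) * |(x : EuclideanSpace ℝ (Fin n)) i| ^ q)))

theorem measurable_coord (H : Submodule ℝ (EuclideanSpace ℝ (Fin n))) (i : Fin n) (q : ℝ) :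
    Measurable (fun x : H => |(x : EuclideanSpace ℝ (Fin n)) i| ^ q) := by
  have h : Continuous (fun x : H => (x : EuclideanSpace ℝ (Fin n)) i) := by fun_prop
  have h2 : Measurable (fun x : H => |(x : EuclideanSpace ℝ (Fin n)) i|) :=
    (continuous_abs.comp h).measurable
  exact h2.pow_const q

theorem one_add_sum_le_prod {ι : Type*} (s : Finset ι) (f : ι → ℝ) (hf : ∀ i, 0 ≤ f i) :
    1 + ∑ i ∈ s, f i ≤ ∏ i ∈ s, (1 + f i) := by
  classical
  induction s using Finset.induction_on with
  | empty => simp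
  | insert a s ha ih =>
    rw [Finset.sum_insert ha, Finset.prod_insert ha]
    have h1 := hf a
    have h2 : 0 ≤ ∑ i ∈ s, f i := Finset.sum_nonneg fun i _ => hf i
    nlinarith

theorem integrable_bound (H : Submodule ℝ (EuclideanSpace ℝ (Fin n))) {q : ℝ} (hq : 1 ≤ q) :
    ∃ R : ℝ, ∀ d : Fin n → ℝ, (∀ i, 0 < d i) →
      ∫⁻ x : H, ∏ i, ENNReal.ofReal
        ((1 + d i * |(x : EuclideanSpace ℝ (Fin n)) i| ^ q) ^ (-R)) ≠ ∞ := by
  set R : ℝ := finrank ℝ H + 1 with hR
  have hR0 : 0 < R := by positivity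
  refine ⟨R, fun d hd => ?_⟩
  set c : ℝ := ∏ i, (min 1 (d i) / 2) with hc
  have hc0 : 0 < c := Finset.prod_pos fun i _ => by
    have := hd i
    positivity
  have hint : Integrable (fun x : H => c ^ (-R) * (1 + ‖x‖) ^ (-R)) := by
    apply Integrable.const_mul
    apply integrable_one_add_norm
    rw [hR]
    linarith
  have hkey : ∀ x : H, ∏ i, ENNReal.ofReal
        ((1 + d i * |(x : EuclideanSpace ℝ (Fin n)) i| ^ q) ^ (-R))
        ≤ ENNReal.ofReal (c ^ (-R) * (1 + ‖x‖) ^ (-R)) := by
    intro x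
    have hpos : ∀ i, 0 < 1 + d i * |(x : EuclideanSpace ℝ (Fin n)) i| ^ q := by
      intro i
      have := hd i
      positivity
    rw [← ENNReal.ofReal_prod_of_nonneg (fun i _ => Real.rpow_nonneg (hpos i).le _)]
    apply ENNReal.ofReal_le_ofReal
    rw [Real.finsetProd_rpow _ _ (fun i _ => (hpos i).le),
      ← Real.mul_rpow hc0.le (by positivity)]
    apply Real.rpow_le_rpow_of_nonpos (by positivity) _ (by linarith)
    have h1 : ∀ i, min 1 (d i) / 2 * (1 + |(x : EuclideanSpace ℝ (Fin n)) i|)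
        ≤ 1 + d i * |(x : EuclideanSpace ℝ (Fin n)) i| ^ q := by
      intro i
      set y := |(x : EuclideanSpace ℝ (Fin n)) i| with hy
      have hy0 : 0 ≤ y := abs_nonneg _
      have hmin1 : min 1 (d i) ≤ 1 := min_le_left _ _
      have hmind : min 1 (d i) ≤ d i := min_le_right _ _
      have hmin0 : 0 < min 1 (d i) := lt_min one_pos (hd i)
      have hyq : 0 ≤ y ^ q := Real.rpow_nonneg hy0 _
      rcases le_or_gt y 1 with h | h
      · nlinarith [mul_nonneg (hd i).le hyq]
      · have h2 : y ≤ y ^ q := by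
          conv_lhs => rw [← Real.rpow_one y]
          exact Real.rpow_le_rpow_of_exponent_le h.le hq
        nlinarith [mul_le_mul hmind h2 hy0 (hd i).le]
    have h2 : c * ∏ i, (1 + |(x : EuclideanSpace ℝ (Fin n)) i|)
        ≤ ∏ i, (1 + d i * |(x : EuclideanSpace ℝ (Fin n)) i| ^ q) := by
      rw [hc, ← Finset.prod_mul_distrib]
      apply Finset.prod_le_prod
      · intro i _
        have : 0 < min 1 (d i) := lt_min one_pos (hd i)
        positivity
      · intro i _
        exact h1 i
    refine le_trans (mul_le_mul_of_nonneg_left ?_ hc0.le) h2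
    have h3 : 1 + ∑ i, |(x : EuclideanSpace ℝ (Fin n)) i|
        ≤ ∏ i, (1 + |(x : EuclideanSpace ℝ (Fin n)) i|) :=
      one_add_sum_le_prod _ _ (fun i => abs_nonneg _)
    have h4 : ‖x‖ ≤ ∑ i, |(x : EuclideanSpace ℝ (Fin n)) i| := by
      rw [Submodule.coe_norm, EuclideanSpace.norm_eq]
      rw [Real.sqrt_le_left (Finset.sum_nonneg fun i _ => abs_nonneg _)]
      simp only [Real.norm_eq_abs]
      exact Finset.sum_sq_le_sq_sum_of_nonneg fun i _ => abs_nonneg _
    linarith
  refine ((lintegral_mono hkey).trans_lt ?_).ne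
  exact hint.lintegral_lt_top

theorem exp_sum_eq {H : Submodule ℝ (EuclideanSpace ℝ (Fin n))} (q : ℝ) (τ : Fin n → ℝ) (x : H) :
    ∏ i, ENNReal.ofReal (Real.exp (-(Real.exp (τ i) * |(x : EuclideanSpace ℝ (Fin n)) i| ^ q)))
      = ENNReal.ofReal (Real.exp
        (-∑ i, Real.exp (τ i) * |(x : EuclideanSpace ℝ (Fin n)) i| ^ q)) := by
  rw [← ENNReal.ofReal_prod_of_nonneg (fun _ _ => (Real.exp_pos _).le), ← Real.exp_sum,
    Finset.sum_neg_distrib]

theorem Phi_ne_top (H : Submodule ℝ (EuclideanSpace ℝ (Fin n))) {q : ℝ} (hq : 1 ≤ q)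
    (τ : Fin n → ℝ) : Phi q H τ ≠ ∞ := by
  obtain ⟨R, hR⟩ := integrable_bound H hq
  -- `exp (-(a y)) ≤ (1 + (a / R') y) ^ (-R')` for `R' = max R 1`
  set R' : ℝ := max R 1 with hR'
  have hR'1 : 1 ≤ R' := le_max_right _ _
  have hR'0 : 0 < R' := by linarith
  have hd : ∀ i, 0 < Real.exp (τ i) / R' := fun i => by positivity
  refine ((lintegral_mono ?_).trans_lt (lt_top_iff_ne_top.2 (hR _ hd))).ne
  intro x
  apply Finset.prod_le_prod'
  intro i _
  apply ENNReal.ofReal_le_ofReal
  set y := |(x : EuclideanSpace ℝ (Fin n)) i| ^ q with hy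
  have hy0 : 0 ≤ y := Real.rpow_nonneg (abs_nonneg _) _
  have h1 : 0 < 1 + Real.exp (τ i) / R' * y := by positivity
  have h2 : Real.log (1 + Real.exp (τ i) / R' * y) ≤ Real.exp (τ i) / R' * y := by
    have := Real.log_le_sub_one_of_pos h1
    linarith
  have h3 : 0 ≤ Real.log (1 + Real.exp (τ i) / R' * y) := by
    apply Real.log_nonneg
    have : 0 ≤ Real.exp (τ i) / R' * y := by positivity
    linarith
  rw [Real.rpow_def_of_pos h1]
  apply Real.exp_le_exp.2
  have h4 : Real.log (1 + Real.exp (τ i) / R' * y) * R ≤ Real.exp (τ i) * y := by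
    calc Real.log (1 + Real.exp (τ i) / R' * y) * R
        ≤ Real.log (1 + Real.exp (τ i) / R' * y) * R' :=
          mul_le_mul_of_nonneg_left (le_max_left _ _) h3
      _ ≤ Real.exp (τ i) / R' * y * R' := mul_le_mul_of_nonneg_right h2 hR'0.le
      _ = Real.exp (τ i) * y := by field_simp
  linarith

theorem Phi_ne_zero (H : Submodule ℝ (EuclideanSpace ℝ (Fin n))) {q : ℝ}
    (τ : Fin n → ℝ) : Phi q H τ ≠ 0 := by
  have hm : Measurable (fun x : H => ∏ i, ENNReal.ofReal
      (Real.exp (-(Real.exp (τ i) * |(x : EuclideanSpace ℝ (Fin n)) i| ^ q)))) := by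
    refine Finset.measurable_prod _ fun i _ => ?_
    exact ((measurable_coord H i q).const_mul _).neg.exp.ennreal_ofReal
  unfold Phi
  rw [Ne, lintegral_eq_zero_iff hm]
  intro h0
  have h1 : ∀ x : H, ∏ i, ENNReal.ofReal
      (Real.exp (-(Real.exp (τ i) * |(x : EuclideanSpace ℝ (Fin n)) i| ^ q))) ≠ 0 := by
    intro x
    rw [exp_sum_eq]
    exact (ENNReal.ofReal_pos.2 (Real.exp_pos _)).ne'
  have h2 : (volume : Measure H) univ = 0 := by
    have := ae_iff.1 h0
    convert this using 2
    ext x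
    simp only [mem_univ, true_iff, Pi.zero_apply]
    exact h1 x
  exact (Measure.measure_univ_ne_zero.2 (NeZero.ne (volume : Measure H))) h2

/-- The gauge. -/
noncomputable def gauge' (q : ℝ) (H : Submodule ℝ (EuclideanSpace ℝ (Fin n))) (t : Fin n → ℝ)
    (x : H) : ℝ :=
  (∑ i, |Real.exp (-t i) * (x : EuclideanSpace ℝ (Fin n)) i| ^ q) ^ (1 / q)

theorem mem_section_iff {q : ℝ} (hq : 0 < q) (H : Submodule ℝ (EuclideanSpace ℝ (Fin n)))
    (t : Fin n → ℝ) (x : H) :
    (x : EuclideanSpace ℝ (Fin n)) ∈ diagExp t '' lpBall n q ↔ gauge' q H t x ≤ 1 := by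
  have h1 : gauge' q H t x ≤ 1 ↔
      ∑ i, |Real.exp (-t i) * (x : EuclideanSpace ℝ (Fin n)) i| ^ q ≤ 1 := by
    unfold gauge'
    have hS : 0 ≤ ∑ i, |Real.exp (-t i) * (x : EuclideanSpace ℝ (Fin n)) i| ^ q :=
      Finset.sum_nonneg fun i _ => Real.rpow_nonneg (abs_nonneg _) _
    have h := Real.rpow_le_rpow_iff hS zero_le_one (show 0 < 1 / q by positivity)
    rw [Real.one_rpow] at h
    exact h
  rw [h1]
  constructor
  · rintro ⟨y, hy, hyx⟩
    have : ∀ i, Real.exp (-t i) * (x : EuclideanSpace ℝ (Fin n)) i = y i := by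
      intro i
      rw [← hyx, diagExp]
      simp only
      rw [← mul_assoc, ← Real.exp_add, neg_add_cancel, Real.exp_zero, one_mul]
    simp only [this]
    exact hy
  · intro h
    refine ⟨WithLp.toLp 2 fun i => Real.exp (-t i) * (x : EuclideanSpace ℝ (Fin n)) i, h, ?_⟩
    ext i
    simp only [diagExp]
    rw [← mul_assoc, ← Real.exp_add, add_neg_cancel, Real.exp_zero, one_mul]

theorem volume_section {q : ℝ} (hq : 1 ≤ q) (H : Submodule ℝ (EuclideanSpace ℝ (Fin n)))
    (t : Fin n → ℝ) :
    sectionVolume q H t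
      = (Phi q H (fun i => -(q * t i))).toReal / Real.Gamma (finrank ℝ H / q + 1) := by
  have hq0 : 0 < q := by linarith
  have h1 : gauge' q H t 0 = 0 := by
    unfold gauge'
    simp [Real.zero_rpow hq0.ne', Real.zero_rpow (inv_ne_zero hq0.ne')]
  have h2 : ∀ x, gauge' q H t (-x) = gauge' q H t x := by
    intro x
    unfold gauge'
    simp [abs_neg]
  have h3 : ∀ x y, gauge' q H t (x + y) ≤ gauge' q H t x + gauge' q H t y := by
    intro x y
    have := Real.Lp_add_le Finset.univ
      (fun i => Real.exp (-t i) * (x : EuclideanSpace ℝ (Fin n)) i)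
      (fun i => Real.exp (-t i) * (y : EuclideanSpace ℝ (Fin n)) i) hq
    unfold gauge'
    refine le_trans (le_of_eq ?_) this
    congr 1
    apply Finset.sum_congr rfl
    intro i _
    congr 2
    simp only [Submodule.coe_add, PiLp.add_apply]
    ring
  have h4 : ∀ {x}, gauge' q H t x = 0 → x = 0 := by
    intro x hx
    unfold gauge' at hx
    have hS : 0 ≤ ∑ i, |Real.exp (-t i) * (x : EuclideanSpace ℝ (Fin n)) i| ^ q :=
      Finset.sum_nonneg fun i _ => Real.rpow_nonneg (abs_nonneg _) _
    rw [Real.rpow_eq_zero hS (by positivity)] at hx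
    rw [Finset.sum_eq_zero_iff_of_nonneg fun i _ => Real.rpow_nonneg (abs_nonneg _) _] at hx
    apply Subtype.ext
    ext i
    have h5 := hx i (Finset.mem_univ i)
    rw [Real.rpow_eq_zero (abs_nonneg _) hq0.ne', abs_eq_zero] at h5
    rcases mul_eq_zero.1 h5 with h6 | h6
    · exact absurd h6 (Real.exp_pos _).ne'
    · simpa using h6
  have h5 : ∀ (r : ℝ) x, gauge' q H t (r • x) ≤ |r| * gauge' q H t x := by
    intro r x
    unfold gauge'
    apply le_of_eq
    have : ∀ i, |Real.exp (-t i) * ((r • x : H) : EuclideanSpace ℝ (Fin n)) i| ^ q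
        = |r| ^ q * |Real.exp (-t i) * (x : EuclideanSpace ℝ (Fin n)) i| ^ q := by
      intro i
      rw [← Real.mul_rpow (abs_nonneg _) (abs_nonneg _), ← abs_mul]
      congr 2
      simp only [Submodule.coe_smul, PiLp.smul_apply, smul_eq_mul]
      ring
    simp only [this]
    rw [← Finset.mul_sum, Real.mul_rpow (by positivity)
      (Finset.sum_nonneg fun i _ => Real.rpow_nonneg (abs_nonneg _) _), ← Real.rpow_mul
      (abs_nonneg _), mul_one_div_cancel hq0.ne', Real.rpow_one]
  have hset : {x : H | (x : EuclideanSpace ℝ (Fin n)) ∈ diagExp t '' lpBall n q}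
      = {x : H | gauge' q H t x ≤ 1} := by
    ext x
    exact mem_section_iff hq0 H t x
  have hlt : (volume : Measure H) {x : H | gauge' q H t x ≤ 1}
      = (volume : Measure H) {x : H | gauge' q H t x < 1} := by
    rcases subsingleton_or_nontrivial H with hs | hs
    · congr 1
      ext x
      have hx : x = 0 := Subsingleton.elim _ _
      simp [hx, h1]
    · exact measure_le_eq_lt volume h1 h2 h3 h4 h5 1
  have hexp : ∀ x : H, Real.exp (-(gauge' q H t x) ^ q)
      = Real.exp (-∑ i, Real.exp (-(q * t i)) * |(x : EuclideanSpace ℝ (Fin n)) i| ^ q) := by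
    intro x
    unfold gauge'
    rw [← Real.rpow_mul (Finset.sum_nonneg fun i _ => Real.rpow_nonneg (abs_nonneg _) _),
      one_div_mul_cancel hq0.ne', Real.rpow_one]
    congr 2
    apply Finset.sum_congr rfl
    intro i _
    rw [abs_mul, Real.mul_rpow (abs_nonneg _) (abs_nonneg _), abs_of_pos (Real.exp_pos _),
      ← Real.exp_mul]
    congr 2
    ring
  have hG : 0 < Real.Gamma (finrank ℝ H / q + 1) := Real.Gamma_pos_of_pos (by positivity)
  have hPhi : (Phi q H (fun i => -(q * t i))).toReal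
      = ∫ x : H, Real.exp
        (-∑ i, Real.exp (-(q * t i)) * |(x : EuclideanSpace ℝ (Fin n)) i| ^ q) := by
    rw [integral_eq_lintegral_of_nonneg_ae (Eventually.of_forall fun x => (Real.exp_pos _).le)]
    · congr 1
      unfold Phi
      exact lintegral_congr fun x => exp_sum_eq q _ x
    · have : Measurable (fun x : H => Real.exp
        (-∑ i, Real.exp (-(q * t i)) * |(x : EuclideanSpace ℝ (Fin n)) i| ^ q)) :=
        (Finset.measurable_sum _ fun i _ => (measurable_coord H i q).const_mul _).neg.exp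
      exact this.aestronglyMeasurable
  unfold sectionVolume volumeIn
  rw [hset, hlt, measure_lt_one_eq_integral_div_gamma volume h1 h2 h3 h4 h5 hq0,
    ENNReal.toReal_ofReal, hPhi]
  · simp only [hexp]
  · apply div_nonneg _ hG.le
    exact integral_nonneg fun x => (Real.exp_pos _).le

theorem isLogConcave_iff {q : ℝ} (hq : 1 ≤ q) (H : Submodule ℝ (EuclideanSpace ℝ (Fin n))) :
    IsLogConcave (sectionVolume q H) ↔
      ∀ l m : ℝ, 0 < l → 0 < m → l + m = 1 → LC l m (Phi q H) := by
  have hq0 : 0 < q := by linarith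
  have hG : 0 < Real.Gamma (finrank ℝ H / q + 1) := Real.Gamma_pos_of_pos (by positivity)
  have hpos : ∀ τ, 0 < (Phi q H τ).toReal := fun τ =>
    ENNReal.toReal_pos (Phi_ne_zero H τ) (Phi_ne_top H hq τ)
  have hlog : ∀ t, Real.log (sectionVolume q H t)
      = Real.log (Phi q H (fun i => -(q * t i))).toReal
        - Real.log (Real.Gamma (finrank ℝ H / q + 1)) := by
    intro t
    rw [volume_section hq, Real.log_div (hpos _).ne' hG.ne']
  have hineq : ∀ (l m : ℝ), 0 < l → 0 < m → ∀ a b : Fin n → ℝ,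
      (Phi q H a ^ l * Phi q H b ^ m ≤ Phi q H (l • a + m • b) ↔
        l * Real.log (Phi q H a).toReal + m * Real.log (Phi q H b).toReal
          ≤ Real.log (Phi q H (l • a + m • b)).toReal) := by
    intro l m hl hm a b
    rw [← ENNReal.toReal_le_toReal (ENNReal.mul_ne_top
      (ENNReal.rpow_ne_top_of_nonneg hl.le (Phi_ne_top H hq a))
      (ENNReal.rpow_ne_top_of_nonneg hm.le (Phi_ne_top H hq b))) (Phi_ne_top H hq _),
      ENNReal.toReal_mul, ← ENNReal.toReal_rpow, ← ENNReal.toReal_rpow,
      ← Real.log_le_log_iff (mul_pos (Real.rpow_pos_of_pos (hpos _) _)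
        (Real.rpow_pos_of_pos (hpos _) _)) (hpos _),
      Real.log_mul (Real.rpow_pos_of_pos (hpos _) _).ne' (Real.rpow_pos_of_pos (hpos _) _).ne',
      Real.log_rpow (hpos _), Real.log_rpow (hpos _)]
  constructor
  · rintro ⟨-, -, hconc⟩ l m hl hm hlm a b
    rw [hineq l m hl hm]
    have h1 := hconc (mem_univ (fun i => -(a i / q))) (mem_univ (fun i => -(b i / q)))
      hl.le hm.le hlm
    simp only [hlog, smul_eq_mul] at h1
    have e1 : (fun i => -(q * -(a i / q))) = a := by funext i; field_simp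
    have e2 : (fun i => -(q * -(b i / q))) = b := by funext i; field_simp
    have e3 : (fun i => -(q * (l • (fun i => -(a i / q)) + m • (fun i => -(b i / q))) i))
        = l • a + m • b := by
      funext i
      simp only [Pi.add_apply, Pi.smul_apply, smul_eq_mul]
      field_simp
      ring
    rw [e1, e2, e3] at h1
    have hm' : m = 1 - l := by linarith
    rw [hm'] at h1 ⊢
    linarith
  · intro h
    refine ⟨fun t => ?_, convex_univ, ?_⟩
    · rw [volume_section hq]
      exact div_pos (hpos _) hG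
    · intro a _ b _ l m hl hm hlm
      rcases hl.eq_or_lt with h0 | hl0
      · subst h0
        have : m = 1 := by linarith
        subst this
        simp
      rcases hm.eq_or_lt with h0 | hm0
      · subst h0
        have : l = 1 := by linarith
        subst this
        simp
      simp only [hlog, smul_eq_mul]
      have h1 := (hineq l m hl0 hm0 (fun i => -(q * a i)) (fun i => -(q * b i))).1
        (h l m hl0 hm0 hlm _ _)
      have e3 : l • (fun i => -(q * a i)) + m • (fun i => -(q * b i))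
          = fun i => -(q * (l • a + m • b) i) := by
        funext i
        simp only [Pi.add_apply, Pi.smul_apply, smul_eq_mul]
        ring
      rw [e3] at h1
      have hm' : m = 1 - l := by linarith
      rw [hm'] at h1 ⊢
      linarith

/-- Monotonicity in the exponent. -/
theorem isLogConcave_of_lt {p q : ℝ} (hp : 1 ≤ p) (hpq : p < q)
    (H : Submodule ℝ (EuclideanSpace ℝ (Fin n))) (h : IsLogConcave (sectionVolume q H)) :
    IsLogConcave (sectionVolume p H) := by
  have hq : 1 ≤ q := by linarith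
  have hp0 : 0 < p := by linarith
  have hq0 : 0 < q := by linarith
  rw [isLogConcave_iff hp]
  rw [isLogConcave_iff hq] at h
  intro l m hl hm hlm
  have h1 := lc_limit (volume : Measure H)
    (q := fun i (x : H) => |(x : EuclideanSpace ℝ (Fin n)) i| ^ q)
    (fun i => measurable_coord H i q) (fun i x => Real.rpow_nonneg (abs_nonneg _) _)
    hl hm hlm (α := p / q) (by positivity) ((div_lt_one hq0).2 hpq) (integrable_bound H hq)
    (h l m hl hm hlm)
  have h2 : ∀ (i : Fin n) (x : H), (|(x : EuclideanSpace ℝ (Fin n)) i| ^ q) ^ (p / q)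
      = |(x : EuclideanSpace ℝ (Fin n)) i| ^ p := by
    intro i x
    rw [← Real.rpow_mul (abs_nonneg _), mul_div_cancel₀ _ hq0.ne']
  simp only [h2] at h1
  exact h1

end Pool.Agent.Helper86.LP
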