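import Pool.Agent.Helper86.LP.CauchyBinet
import Pool.Agent.Helper86.LP.Section

open Set MeasureTheory Filter Topology Module Matrix
open scoped ENNReal

namespace Pool.Agent.Helper86.LP

section det

variable {n k : ℕ} (U : Matrix (Fin n) (Fin k) ℝ)

theorem posDef_form (hU : Function.Injective U.mulVec) (τ : Fin n → ℝ) :
    (Uᵀ * Matrix.diagonal (fun i => Real.exp (τ i)) * U).PosDef := by
  have h1 : (Matrix.diagonal (fun i => Real.exp (τ i)) : Matrix (Fin n) (Fin n) ℝ).PosDef :=
    Matrix.PosDef.diagonal fun i => Real.exp_pos _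
  have := h1.conjTranspose_mul_mul_same hU
  rwa [Matrix.conjTranspose_eq_transpose_of_trivial] at this

theorem det_logconvex (hU : Function.Injective U.mulVec) (a b : Fin n → ℝ) {l m : ℝ}
    (hl : 0 < l) (hm : 0 < m) (hlm : l + m = 1) :
    (Uᵀ * Matrix.diagonal (fun i => Real.exp ((l • a + m • b) i)) * U).det
      ≤ (Uᵀ * Matrix.diagonal (fun i => Real.exp (a i)) * U).det ^ l
        * (Uᵀ * Matrix.diagonal (fun i => Real.exp (b i)) * U).det ^ m := by
  set T : (Fin n → ℝ) → ℝ := fun τ => (Uᵀ * Matrix.diagonal (fun i => Real.exp (τ i)) * U).det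
    with hT
  have hTpos : ∀ τ, 0 < T τ := fun τ => (posDef_form U hU τ).det_pos
  set w : (Fin k → Fin n) → ℝ := fun f => ((Nat.factorial k : ℝ))⁻¹ * (U.submatrix f id).det ^ 2
    with hw
  have hw0 : ∀ f, 0 ≤ w f := fun f => by simp only [hw]; positivity
  have hTsum : ∀ τ, T τ = ∑ f : Fin k → Fin n, w f * Real.exp (∑ j, τ (f j)) := by
    intro τ
    have h1 := cauchy_binet U (fun i => Real.exp (τ i))
    have hk : (Nat.factorial k : ℝ) ≠ 0 := by positivity
    have h2 : T τ = ((Nat.factorial k : ℝ))⁻¹ *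
        ∑ f : Fin k → Fin n, (∏ j, Real.exp (τ (f j))) * (U.submatrix f id).det ^ 2 := by
      rw [← h1, ← mul_assoc, inv_mul_cancel₀ hk, one_mul]
    rw [h2, Finset.mul_sum]
    apply Finset.sum_congr rfl
    intro f _
    rw [Real.exp_sum]
    simp only [hw]
    ring
  have hA := hTpos a
  have hB := hTpos b
  have key : ∀ f : Fin k → Fin n, w f * Real.exp (∑ j, (l • a + m • b) (f j))
      ≤ T a ^ l * T b ^ m * (l * (w f * Real.exp (∑ j, a (f j)) / T a)
        + m * (w f * Real.exp (∑ j, b (f j)) / T b)) := by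
    intro f
    have h2 := Real.geom_mean_le_arith_mean2_weighted (p₁ := Real.exp (∑ j, a (f j)) / T a)
      (p₂ := Real.exp (∑ j, b (f j)) / T b) hl.le hm.le (by positivity) (by positivity) hlm
    rw [Real.div_rpow (Real.exp_pos _).le hA.le, Real.div_rpow (Real.exp_pos _).le hB.le,
      ← Real.exp_mul, ← Real.exp_mul, div_mul_div_comm, ← Real.exp_add,
      div_le_iff₀ (by positivity)] at h2
    have h3 : ∑ j, (l • a + m • b) (f j) = (∑ j, a (f j)) * l + (∑ j, b (f j)) * m := by
      simp only [Pi.add_apply, Pi.smul_apply, smul_eq_mul]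
      rw [Finset.sum_add_distrib, ← Finset.mul_sum, ← Finset.mul_sum]
      ring
    rw [h3]
    calc w f * Real.exp ((∑ j, a (f j)) * l + (∑ j, b (f j)) * m)
        ≤ w f * ((l * (Real.exp (∑ j, a (f j)) / T a) + m * (Real.exp (∑ j, b (f j)) / T b))
          * (T a ^ l * T b ^ m)) := mul_le_mul_of_nonneg_left h2 (hw0 f)
      _ = _ := by ring
  have hgoal : T (l • a + m • b) ≤ T a ^ l * T b ^ m := by
    rw [hTsum (l • a + m • b)]
    calc ∑ f : Fin k → Fin n, w f * Real.exp (∑ j, (l • a + m • b) (f j))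
        ≤ ∑ f : Fin k → Fin n, T a ^ l * T b ^ m * (l * (w f * Real.exp (∑ j, a (f j)) / T a)
          + m * (w f * Real.exp (∑ j, b (f j)) / T b)) := Finset.sum_le_sum fun f _ => key f
      _ = T a ^ l * T b ^ m * (l * ((∑ f : Fin k → Fin n, w f * Real.exp (∑ j, a (f j))) / T a)
          + m * ((∑ f : Fin k → Fin n, w f * Real.exp (∑ j, b (f j))) / T b)) := by
          rw [← Finset.mul_sum, Finset.sum_add_distrib, ← Finset.mul_sum, ← Finset.mul_sum,
            Finset.sum_div, Finset.sum_div]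
      _ = T a ^ l * T b ^ m := by
          rw [← hTsum, ← hTsum, div_self hA.ne', div_self hB.ne', mul_one, mul_one, hlm, mul_one]
  exact hgoal

open scoped MatrixOrder in
theorem exists_sq_root {M : Matrix (Fin k) (Fin k) ℝ} (hM : M.PosSemidef) :
    ∃ B : Matrix (Fin k) (Fin k) ℝ, M = Bᵀ * B := by
  obtain ⟨B, hB⟩ := CStarAlgebra.nonneg_iff_eq_star_mul_self.mp hM.nonneg
  refine ⟨B, ?_⟩
  rw [hB, Matrix.star_eq_conjTranspose, Matrix.conjTranspose_eq_transpose_of_trivial]

/-- The Gaussian integral up to a constant. -/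
theorem gaussian (hU : Function.Injective U.mulVec) (τ : Fin n → ℝ) :
    ∫⁻ y : Fin k → ℝ, ENNReal.ofReal (Real.exp (-∑ i, Real.exp (τ i) * (U.mulVec y i) ^ 2))
      = ENNReal.ofReal
        ((Uᵀ * Matrix.diagonal (fun i => Real.exp (τ i)) * U).det ^ (-(1 / 2) : ℝ))
        * ∫⁻ y : Fin k → ℝ, ENNReal.ofReal (Real.exp (-∑ j, y j ^ 2)) := by
  set M := Uᵀ * Matrix.diagonal (fun i => Real.exp (τ i)) * U with hM
  have hpd : M.PosDef := posDef_form U hU τ
  obtain ⟨B, hB⟩ := exists_sq_root hpd.posSemidef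
  have hdet : M.det = B.det ^ 2 := by
    rw [hB, Matrix.det_mul, Matrix.det_transpose]; ring
  have hMpos := hpd.det_pos
  have hBdet : B.det ≠ 0 := by
    intro h0
    rw [hdet, h0] at hMpos
    simp at hMpos
  have h1 : ∀ y : Fin k → ℝ, ∑ i, Real.exp (τ i) * (U.mulVec y i) ^ 2
      = ∑ j, (Matrix.toLin' B y) j ^ 2 := by
    intro y
    have e1 : ∑ i, Real.exp (τ i) * (U.mulVec y i) ^ 2 = y ⬝ᵥ (M.mulVec y) := by
      rw [hM, ← Matrix.mulVec_mulVec, ← Matrix.mulVec_mulVec, Matrix.dotProduct_mulVec,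
        Matrix.vecMul_transpose, dotProduct]
      apply Finset.sum_congr rfl
      intro i _
      rw [Matrix.mulVec_diagonal]
      ring
    have e2 : ∑ j, (Matrix.toLin' B y) j ^ 2 = y ⬝ᵥ (M.mulVec y) := by
      rw [hB, ← Matrix.mulVec_mulVec, Matrix.dotProduct_mulVec, Matrix.vecMul_transpose,
        dotProduct, Matrix.toLin'_apply]
      apply Finset.sum_congr rfl
      intro i _
      ring
    rw [e1, e2]
  simp only [h1]
  have hmeas : Measurable (fun z : Fin k → ℝ => ENNReal.ofReal (Real.exp (-∑ j, z j ^ 2))) := by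
    fun_prop
  have h2 := lintegral_map (μ := (volume : Measure (Fin k → ℝ))) hmeas
    (show Measurable (Matrix.toLin' B) from (LinearMap.continuous_of_finiteDimensional _).measurable)
  rw [← h2, Real.map_matrix_volume_pi_eq_smul_volume_pi hBdet, lintegral_smul_measure, smul_eq_mul]
  congr 2
  rw [hdet, abs_inv, ← sq_abs, ← Real.rpow_natCast, ← Real.rpow_mul (abs_nonneg _)]
  norm_num
  rw [Real.rpow_neg_one]

end det

variable {n : ℕ}

/-- The base case `q = 2`. -/
theorem lc_two (H : Submodule ℝ (EuclideanSpace ℝ (Fin n))) {l m : ℝ} (hl : 0 < l) (hm : 0 < m)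
    (hlm : l + m = 1) : LC l m (Phi 2 H) := by
  set k := finrank ℝ H with hk
  set b := stdOrthonormalBasis ℝ H with hb
  set U : Matrix (Fin n) (Fin (finrank ℝ H)) ℝ := fun i j => (b j : EuclideanSpace ℝ (Fin n)) i
    with hU
  have hmul : ∀ (y : Fin (finrank ℝ H) → ℝ) (i : Fin n),
      ((b.repr.symm (WithLp.toLp 2 y) : H) : EuclideanSpace ℝ (Fin n)) i = U.mulVec y i := by
    intro y i
    rw [← b.sum_repr_symm]
    simp only [Submodule.coe_sum, Submodule.coe_smul, Matrix.mulVec, dotProduct, hU]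
    rw [WithLp.ofLp_sum, Finset.sum_apply]
    apply Finset.sum_congr rfl
    intro j _
    simp only [PiLp.smul_apply, smul_eq_mul]
    ring
  have hinj : Function.Injective U.mulVec := by
    intro y y' h
    have h1 : b.repr.symm (WithLp.toLp 2 y) = b.repr.symm (WithLp.toLp 2 y') := by
      apply Subtype.ext
      ext i
      rw [hmul, hmul, h]
    have h2 := b.repr.symm.injective h1
    exact (WithLp.toLp_injective 2) h2
  have hPhi : ∀ τ, Phi 2 H τ = ENNReal.ofReal
        ((Uᵀ * Matrix.diagonal (fun i => Real.exp (τ i)) * U).det ^ (-(1 / 2) : ℝ))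
        * ∫⁻ y : Fin (finrank ℝ H) → ℝ, ENNReal.ofReal (Real.exp (-∑ j, y j ^ 2)) := by
    intro τ
    rw [← gaussian U hinj τ]
    unfold Phi
    simp only [exp_sum_eq]
    have hmp : MeasurePreserving (fun y : Fin (finrank ℝ H) → ℝ => b.repr.symm (WithLp.toLp 2 y))
        volume volume :=
      b.measurePreserving_repr_symm.comp (PiLp.volume_preserving_toLp _)
    have hmeas : Measurable (fun x : H => ENNReal.ofReal (Real.exp
        (-∑ i, Real.exp (τ i) * |(x : EuclideanSpace ℝ (Fin n)) i| ^ (2 : ℝ)))) :=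
      (Finset.measurable_sum _ fun i _ =>
        (measurable_coord H i 2).const_mul _).neg.exp.ennreal_ofReal
    rw [← hmp.lintegral_comp hmeas]
    apply lintegral_congr
    intro y
    congr 3
    apply Finset.sum_congr rfl
    intro i _
    rw [hmul]
    congr 1
    rw [Real.rpow_two, sq_abs]
  intro a c
  simp only [hPhi]
  set Z := ∫⁻ y : Fin (finrank ℝ H) → ℝ, ENNReal.ofReal (Real.exp (-∑ j, y j ^ 2)) with hZ
  have hZlm : Z ^ l * Z ^ m = Z := by
    rw [← ENNReal.rpow_add_of_nonneg _ _ hl.le hm.le, hlm, ENNReal.rpow_one]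
  have hA := (posDef_form U hinj a).det_pos
  have hC := (posDef_form U hinj c).det_pos
  have hAC := (posDef_form U hinj (l • a + m • c)).det_pos
  have hd := det_logconvex U hinj a c hl hm hlm
  rw [ENNReal.mul_rpow_of_nonneg _ _ hl.le, ENNReal.mul_rpow_of_nonneg _ _ hm.le]
  set A := (Uᵀ * Matrix.diagonal (fun i => Real.exp (a i)) * U).det
  set C := (Uᵀ * Matrix.diagonal (fun i => Real.exp (c i)) * U).det
  set AC := (Uᵀ * Matrix.diagonal (fun i => Real.exp ((l • a + m • c) i)) * U).det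
  have h1 : ENNReal.ofReal (A ^ (-(1 / 2) : ℝ)) ^ l * ENNReal.ofReal (C ^ (-(1 / 2) : ℝ)) ^ m
      ≤ ENNReal.ofReal (AC ^ (-(1 / 2) : ℝ)) := by
    rw [ENNReal.ofReal_rpow_of_nonneg (by positivity) hl.le,
      ENNReal.ofReal_rpow_of_nonneg (by positivity) hm.le, ← ENNReal.ofReal_mul (by positivity)]
    apply ENNReal.ofReal_le_ofReal
    rw [← Real.rpow_mul hA.le, ← Real.rpow_mul hC.le, mul_comm _ l, mul_comm _ m,
      Real.rpow_mul hA.le, Real.rpow_mul hC.le, ← Real.mul_rpow (by positivity) (by positivity)]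
    exact Real.rpow_le_rpow_of_nonpos hAC hd (by norm_num)
  calc ENNReal.ofReal (A ^ (-(1 / 2) : ℝ)) ^ l * Z ^ l
        * (ENNReal.ofReal (C ^ (-(1 / 2) : ℝ)) ^ m * Z ^ m)
      = (ENNReal.ofReal (A ^ (-(1 / 2) : ℝ)) ^ l * ENNReal.ofReal (C ^ (-(1 / 2) : ℝ)) ^ m)
        * (Z ^ l * Z ^ m) := by ring
    _ ≤ ENNReal.ofReal (AC ^ (-(1 / 2) : ℝ)) * Z := by
        rw [hZlm]
        exact mul_le_mul' h1 le_rfl

/-- The function is log-concave for all `1 ≤ p < 2`. -/
theorem isLogConcave_of_lt_two {p : ℝ} (hp : 1 ≤ p) (hp2 : p < 2)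
    (H : Submodule ℝ (EuclideanSpace ℝ (Fin n))) : IsLogConcave (sectionVolume p H) := by
  apply isLogConcave_of_lt hp hp2 H
  rw [isLogConcave_iff (by norm_num)]
  intro l m hl hm hlm
  exact lc_two H hl hm hlm

end Pool.Agent.Helper86.LP
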