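import Mathlib

open MeasureTheory

namespace Pool.Agent.Helper86.LP

/-- The closed unit ball of the `ℓ_p` norm on `ℝⁿ`. -/
def lpBall (n : ℕ) (p : ℝ) : Set (EuclideanSpace ℝ (Fin n)) :=
  {x | ∑ i, |x i| ^ p ≤ 1}

/-- The diagonal map `D_t = diag (e^{t_1}, …, e^{t_n})`. -/
noncomputable def diagExp {n : ℕ} (t : Fin n → ℝ) (x : EuclideanSpace ℝ (Fin n)) :
    EuclideanSpace ℝ (Fin n) :=
  WithLp.toLp 2 fun i => Real.exp (t i) * x i

/-- The volume of `A ∩ H`, for the Lebesgue measure of the Euclidean space `H` (a linear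
subspace of the Euclidean space `E`, with the inner product of `E`). -/
noncomputable def volumeIn {E : Type} [NormedAddCommGroup E] [InnerProductSpace ℝ E]
    [FiniteDimensional ℝ E] [MeasurableSpace E] [BorelSpace E] (H : Submodule ℝ E) (A : Set E) :
    ENNReal :=
  (volume : Measure H) {x : H | (x : E) ∈ A}

/-- The volume of the section of `D_t B_p^n` by the subspace `H`. -/
noncomputable def sectionVolume {n : ℕ} (p : ℝ) (H : Submodule ℝ (EuclideanSpace ℝ (Fin n)))
    (t : Fin n → ℝ) : ℝ :=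
  (volumeIn H (diagExp t '' lpBall n p)).toReal

/-- A positive function on `ℝⁿ` whose logarithm is concave, jointly in all variables. -/
def IsLogConcave {n : ℕ} (g : (Fin n → ℝ) → ℝ) : Prop :=
  (∀ t, 0 < g t) ∧ ConcaveOn ℝ Set.univ fun t => Real.log (g t)

end Pool.Agent.Helper86.LP
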