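import Mathlib

open Set MeasureTheory Filter Topology
open scoped ENNReal Pointwise

namespace Pool.Agent.Helper86.LP

/-- One dimensional Brunn-Minkowski for compact sets. -/
theorem volume_add_le_of_isCompact {A B C : Set ℝ} (hA : IsCompact A) (hB : IsCompact B)
    (hA' : A.Nonempty) (hB' : B.Nonempty) (h : ∀ x ∈ A, ∀ y ∈ B, x + y ∈ C) :
    volume A + volume B ≤ volume C := by
  set a := sSup A with ha
  set b := sInf B with hb
  have haA : a ∈ A := hA.sSup_mem hA'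
  have hbB : b ∈ B := hB.sInf_mem hB'
  set A' : Set ℝ := (fun x => x + -b) ⁻¹' A with hA'def
  set B' : Set ℝ := (fun x => x + -a) ⁻¹' B with hB'def
  have h1 : volume A' = volume A := measure_preimage_add_right volume (-b) A
  have h2 : volume B' = volume B := measure_preimage_add_right volume (-a) B
  have hsub : A' ∪ B' ⊆ C := by
    rintro x (hx | hx)
    · have := h _ hx b hbB
      simpa using this
    · have := h a haA _ hx
      simpa using this
  have hinter : A' ∩ B' ⊆ {a + b} := by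
    rintro x ⟨hx1, hx2⟩
    have h3 : x + -b ≤ a := le_csSup hA.bddAbove hx1
    have h4 : b ≤ x + -a := csInf_le hB.bddBelow hx2
    rw [mem_singleton_iff]
    linarith
  have hB'm : MeasurableSet B' := hB.measurableSet.preimage (by fun_prop)
  have hdisj : AEDisjoint volume A' B' := by
    rw [AEDisjoint]
    exact measure_mono_null hinter Real.volume_singleton
  rw [← h1, ← h2, ← measure_union₀ hB'm.nullMeasurableSet hdisj]
  exact measure_mono hsub

/-- One dimensional Brunn-Minkowski for measurable sets. -/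
theorem volume_add_le {A B C : Set ℝ} (hA : MeasurableSet A) (hB : MeasurableSet B)
    (hA' : A.Nonempty) (hB' : B.Nonempty) (h : ∀ x ∈ A, ∀ y ∈ B, x + y ∈ C) :
    volume A + volume B ≤ volume C := by
  obtain ⟨a, ha⟩ := hA'
  obtain ⟨b, hb⟩ := hB'
  refine le_of_forall_lt fun r hr => ?_
  by_contra hcon
  push Not at hcon
  have key : ∀ K1 ⊆ A, IsCompact K1 → ∀ K2 ⊆ B, IsCompact K2 →
      volume K1 + volume K2 ≤ volume C := by
    intro K1 hK1 hK1c K2 hK2 hK2c
    refine le_trans (add_le_add (measure_mono (subset_insert a K1))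
      (measure_mono (subset_insert b K2))) ?_
    refine volume_add_le_of_isCompact (hK1c.insert a) (hK2c.insert b) (insert_nonempty _ _)
      (insert_nonempty _ _) ?_
    intro x hx y hy
    exact h x (insert_subset ha hK1 hx) y (insert_subset hb hK2 hy)
  have h3 : volume A + volume B ≤ volume C := by
    rw [hA.measure_eq_iSup_isCompact volume, hB.measure_eq_iSup_isCompact volume]
    simp only [iSup_and']
    refine ENNReal.biSup_add_biSup_le' ⟨∅, empty_subset _, isCompact_empty⟩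
      ⟨∅, empty_subset _, isCompact_empty⟩ ?_
    rintro K1 ⟨h1, h2⟩ K2 ⟨h3, h4⟩
    exact key K1 h1 h2 K2 h3 h4
  exact absurd (hr.trans_le h3) (not_lt.2 hcon)

/-- One dimensional Brunn-Minkowski, with weights. -/
theorem volume_weighted_le {A B C : Set ℝ} (hA : MeasurableSet A) (hB : MeasurableSet B)
    (hA' : A.Nonempty) (hB' : B.Nonempty) {l m : ℝ} (hl : 0 < l) (hm : 0 < m)
    (h : ∀ x ∈ A, ∀ y ∈ B, l * x + m * y ∈ C) :
    ENNReal.ofReal l * volume A + ENNReal.ofReal m * volume B ≤ volume C := by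
  have h1 : volume ((fun x => l⁻¹ * x) ⁻¹' A) = ENNReal.ofReal l * volume A := by
    rw [Real.volume_preimage_mul_left (inv_ne_zero hl.ne'), inv_inv, abs_of_pos hl]
  have h2 : volume ((fun x => m⁻¹ * x) ⁻¹' B) = ENNReal.ofReal m * volume B := by
    rw [Real.volume_preimage_mul_left (inv_ne_zero hm.ne'), inv_inv, abs_of_pos hm]
  rw [← h1, ← h2]
  refine volume_add_le (hA.preimage (by fun_prop)) (hB.preimage (by fun_prop)) ?_ ?_ ?_
  · obtain ⟨a, ha⟩ := hA'
    exact ⟨l * a, by simpa [hl.ne'] using ha⟩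
  · obtain ⟨b, hb⟩ := hB'
    exact ⟨m * b, by simpa [hm.ne'] using hb⟩
  · intro x hx y hy
    have := h _ hx _ hy
    simpa [hl.ne', hm.ne'] using this

theorem geom_le_arith (a b : ℝ≥0∞) {l m : ℝ} (hl : 0 < l) (hm : 0 < m) (hlm : l + m = 1) :
    a ^ l * b ^ m ≤ ENNReal.ofReal l * a + ENNReal.ofReal m * b := by
  have hpq : (1 / l).HolderConjugate (1 / m) := by
    rw [Real.holderConjugate_iff]
    refine ⟨?_, by simpa using hlm⟩
    rw [lt_div_iff₀ hl]; linarith
  have := ENNReal.young_inequality (a ^ l) (b ^ m) hpq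
  rw [← ENNReal.rpow_mul, ← ENNReal.rpow_mul, mul_one_div_cancel hl.ne',
    mul_one_div_cancel hm.ne', ENNReal.rpow_one, ENNReal.rpow_one] at this
  refine this.trans (le_of_eq ?_)
  rw [one_div, one_div, ENNReal.ofReal_inv_of_pos hl, ENNReal.ofReal_inv_of_pos hm, div_eq_mul_inv,
    div_eq_mul_inv, inv_inv, inv_inv, mul_comm a, mul_comm b]

/-- Normalized Prekopa-Leindler. -/
theorem pl_normalized {f g h : ℝ → ℝ} (hf : Measurable f) (hg : Measurable g) (hh : Measurable h)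
    (hf0 : ∀ x, 0 ≤ f x) (hg0 : ∀ x, 0 ≤ g x) (hh0 : ∀ x, 0 ≤ h x)
    (hf1 : ∀ x, f x ≤ 1) (hg1 : ∀ x, g x ≤ 1)
    (hfs : ∀ s < 1, ∃ x, s < f x) (hgs : ∀ s < 1, ∃ x, s < g x)
    {l m : ℝ} (hl : 0 < l) (hm : 0 < m) (hlm : l + m = 1)
    (hfgh : ∀ x y, f x ^ l * g y ^ m ≤ h (l * x + m * y)) :
    ENNReal.ofReal l * (∫⁻ x, ENNReal.ofReal (f x))
      + ENNReal.ofReal m * (∫⁻ x, ENNReal.ofReal (g x)) ≤ ∫⁻ x, ENNReal.ofReal (h x) := by
  have cake : ∀ f : ℝ → ℝ, Measurable f → (∀ x, 0 ≤ f x) →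
      ∫⁻ x, ENNReal.ofReal (f x) = ∫⁻ t in Ioi (0 : ℝ), volume {x | t < f x} := by
    intro f hf hf0
    exact lintegral_eq_lintegral_meas_lt volume (Eventually.of_forall hf0) hf.aemeasurable
  have hsplit : ∀ F : ℝ → ℝ≥0∞, ∫⁻ t in Ioi (0 : ℝ), F t
      = (∫⁻ t in Ioo (0 : ℝ) 1, F t) + ∫⁻ t in Ici (1 : ℝ), F t := by
    intro F
    have hd : Disjoint (Ioo (0 : ℝ) 1) (Ici (1 : ℝ)) := by
      rw [Set.disjoint_left]
      intro x hx hx'
      exact absurd hx.2 (not_lt.2 hx')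
    rw [← Ioo_union_Ici_eq_Ioi (zero_lt_one' ℝ), lintegral_union measurableSet_Ici hd]
  have hzero : ∀ f : ℝ → ℝ, (∀ x, f x ≤ 1) →
      ∫⁻ t in Ici (1 : ℝ), volume {x | t < f x} = 0 := by
    intro f hf1
    rw [setLIntegral_congr_fun (g := fun _ => 0) measurableSet_Ici, lintegral_zero]
    intro t ht
    have : {x | t < f x} = ∅ := by
      ext x
      simp only [mem_ofPred_eq, mem_empty_iff_false, iff_false, not_lt]
      exact (hf1 x).trans ht
    simp only [this, measure_empty]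
  have hmono : ∀ f : ℝ → ℝ, Measurable (fun t : ℝ => volume {x | t < f x}) := by
    intro f
    apply Antitone.measurable
    intro s t hst
    apply measure_mono
    intro x hx
    exact lt_of_le_of_lt hst hx
  rw [cake f hf hf0, cake g hg hg0, cake h hh hh0, hsplit, hsplit, hsplit, hzero f hf1,
    hzero g hg1, add_zero, add_zero, ← lintegral_const_mul _ (hmono f),
    ← lintegral_const_mul _ (hmono g), ← lintegral_add_left ((hmono f).const_mul _)]
  refine le_trans ?_ le_self_add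
  refine setLIntegral_mono' measurableSet_Ioo ?_
  intro t ht
  refine volume_weighted_le (measurableSet_lt measurable_const hf)
    (measurableSet_lt measurable_const hg) (hfs t ht.2) (hgs t ht.2) hl hm ?_
  intro x hx y hy
  have hx' : t < f x := hx
  have hy' : t < g y := hy
  refine lt_of_lt_of_le ?_ (hfgh x y)
  have h1 : t ^ l < f x ^ l := Real.rpow_lt_rpow ht.1.le hx' hl
  have h2 : t ^ m < g y ^ m := Real.rpow_lt_rpow ht.1.le hy' hm
  calc t = t ^ l * t ^ m := by rw [← Real.rpow_add ht.1, hlm, Real.rpow_one]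
    _ < f x ^ l * g y ^ m :=
      mul_lt_mul'' h1 h2 (Real.rpow_nonneg ht.1.le _) (Real.rpow_nonneg ht.1.le _)

/-- Prekopa-Leindler for bounded functions. -/
theorem pl_bdd {f g h : ℝ → ℝ≥0∞} (hf : Measurable f) (hg : Measurable g) (hh : Measurable h)
    {l m : ℝ} (hl : 0 < l) (hm : 0 < m) (hlm : l + m = 1)
    (hF0 : (⨆ x, f x) ≠ 0) (hF : (⨆ x, f x) ≠ ∞) (hG0 : (⨆ x, g x) ≠ 0) (hG : (⨆ x, g x) ≠ ∞)
    (hfgh : ∀ x y, f x ^ l * g y ^ m ≤ h (l * x + m * y)) :
    (∫⁻ x, f x) ^ l * (∫⁻ x, g x) ^ m ≤ ∫⁻ x, h x := by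
  set F := ⨆ x, f x with hFdef
  set G := ⨆ x, g x with hGdef
  set K := F ^ l * G ^ m with hK
  have hFl0 : F ^ l ≠ 0 := by simp [ENNReal.rpow_eq_zero_iff, hF0, hF]
  have hGm0 : G ^ m ≠ 0 := by simp [ENNReal.rpow_eq_zero_iff, hG0, hG]
  have hFl : F ^ l ≠ ∞ := by simp [ENNReal.rpow_eq_top_iff, hF0, hF]
  have hGm : G ^ m ≠ ∞ := by simp [ENNReal.rpow_eq_top_iff, hG0, hG]
  have hK0 : K ≠ 0 := mul_ne_zero hFl0 hGm0
  have hKt : K ≠ ∞ := ENNReal.mul_ne_top hFl hGm
  have hfle : ∀ x, f x / F ≤ 1 := fun x =>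
    ENNReal.div_le_of_le_mul (by rw [one_mul]; exact le_iSup f x)
  have hgle : ∀ x, g x / G ≤ 1 := fun x =>
    ENNReal.div_le_of_le_mul (by rw [one_mul]; exact le_iSup g x)
  have hft : ∀ x, f x / F ≠ ∞ := fun x => ((hfle x).trans_lt ENNReal.one_lt_top).ne
  have hgt : ∀ x, g x / G ≠ ∞ := fun x => ((hgle x).trans_lt ENNReal.one_lt_top).ne
  have hht : ∀ x, min (h x / K) 1 ≠ ∞ := fun x =>
    ((min_le_right _ _).trans_lt ENNReal.one_lt_top).ne
  have hsup : ∀ (u : ℝ → ℝ≥0∞) (U : ℝ≥0∞), U = (⨆ x, u x) → U ≠ 0 → U ≠ ∞ →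
      (∀ x, u x / U ≠ ∞) → ∀ s < (1 : ℝ), ∃ x, s < (u x / U).toReal := by
    intro u U hU hU0 hUt hut s hs
    have h1 : ENNReal.ofReal s * U < U := by
      have : ENNReal.ofReal s < 1 := by
        rw [← ENNReal.ofReal_one]
        exact (ENNReal.ofReal_lt_ofReal_iff one_pos).2 hs
      calc ENNReal.ofReal s * U < 1 * U := by
            rw [ENNReal.mul_lt_mul_iff_left hU0 hUt]; exact this
        _ = U := one_mul U
    rw [hU] at h1
    obtain ⟨x, hx⟩ := lt_iSup_iff.1 h1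
    rw [← hU] at hx
    refine ⟨x, ?_⟩
    have h2 : ENNReal.ofReal s < u x / U := by
      rw [ENNReal.lt_div_iff_mul_lt (Or.inl hU0) (Or.inl hUt)]
      exact hx
    rcases le_or_gt 0 s with hs0 | hs0
    · exact (ENNReal.ofReal_lt_iff_lt_toReal hs0 (hut x)).1 h2
    · exact hs0.trans_le ENNReal.toReal_nonneg
  have main := pl_normalized (f := fun x => (f x / F).toReal) (g := fun x => (g x / G).toReal)
    (h := fun x => (min (h x / K) 1).toReal)
    (hf.div_const F).ennreal_toReal (hg.div_const G).ennreal_toReal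
    ((hh.div_const K).min measurable_const).ennreal_toReal
    (fun _ => ENNReal.toReal_nonneg) (fun _ => ENNReal.toReal_nonneg)
    (fun _ => ENNReal.toReal_nonneg)
    (fun x => ENNReal.toReal_le_of_le_ofReal zero_le_one (by simpa using hfle x))
    (fun x => ENNReal.toReal_le_of_le_ofReal zero_le_one (by simpa using hgle x))
    (hsup f F hFdef hF0 hF hft) (hsup g G hGdef hG0 hG hgt) hl hm hlm ?_
  · simp only [ENNReal.ofReal_toReal (hft _), ENNReal.ofReal_toReal (hgt _),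
      ENNReal.ofReal_toReal (hht _)] at main
    have h1 : ∫⁻ x, min (h x / K) 1 ≤ (∫⁻ x, h x) / K := by
      rw [div_eq_mul_inv, ← lintegral_mul_const _ hh]
      exact lintegral_mono fun x => min_le_left _ _
    have h2 := geom_le_arith (∫⁻ x, f x / F) (∫⁻ x, g x / G) hl hm hlm
    have h3 : (∫⁻ x, f x / F) = (∫⁻ x, f x) / F := by
      simp only [div_eq_mul_inv]
      rw [lintegral_mul_const _ hf]
    have h4 : (∫⁻ x, g x / G) = (∫⁻ x, g x) / G := by
      simp only [div_eq_mul_inv]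
      rw [lintegral_mul_const _ hg]
    have h5 : ((∫⁻ x, f x) / F) ^ l * ((∫⁻ x, g x) / G) ^ m ≤ (∫⁻ x, h x) / K := by
      rw [← h3, ← h4]
      exact h2.trans (main.trans h1)
    rw [ENNReal.div_rpow_of_nonneg _ _ hl.le, ENNReal.div_rpow_of_nonneg _ _ hm.le] at h5
    have h6 : (∫⁻ x, f x) ^ l / F ^ l * ((∫⁻ x, g x) ^ m / G ^ m)
        = ((∫⁻ x, f x) ^ l * (∫⁻ x, g x) ^ m) / K := by
      rw [hK, div_eq_mul_inv, div_eq_mul_inv, div_eq_mul_inv,
        ENNReal.mul_inv (Or.inl hFl0) (Or.inl hFl)]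
      ring
    rw [h6] at h5
    calc (∫⁻ x, f x) ^ l * (∫⁻ x, g x) ^ m
        = ((∫⁻ x, f x) ^ l * (∫⁻ x, g x) ^ m) / K * K := (ENNReal.div_mul_cancel hK0 hKt).symm
      _ ≤ (∫⁻ x, h x) / K * K := mul_le_mul' h5 le_rfl
      _ = ∫⁻ x, h x := ENNReal.div_mul_cancel hK0 hKt
  · intro x y
    rw [ENNReal.toReal_rpow, ENNReal.toReal_rpow, ← ENNReal.toReal_mul]
    refine ENNReal.toReal_mono (hht _) ?_
    refine le_min ?_ ?_
    · rw [ENNReal.div_rpow_of_nonneg _ _ hl.le, ENNReal.div_rpow_of_nonneg _ _ hm.le]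
      have h6 : f x ^ l / F ^ l * (g y ^ m / G ^ m) = (f x ^ l * g y ^ m) / K := by
        rw [hK, div_eq_mul_inv, div_eq_mul_inv, div_eq_mul_inv,
          ENNReal.mul_inv (Or.inl hFl0) (Or.inl hFl)]
        ring
      rw [h6]
      exact ENNReal.div_le_div_right (hfgh x y) K
    · calc (f x / F) ^ l * (g y / G) ^ m ≤ 1 ^ l * 1 ^ m :=
          mul_le_mul' (ENNReal.rpow_le_rpow (hfle x) hl.le) (ENNReal.rpow_le_rpow (hgle y) hm.le)
        _ = 1 := by simp

/-- The one dimensional Prekopa-Leindler inequality. -/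
theorem pl_one {f g h : ℝ → ℝ≥0∞} (hf : Measurable f) (hg : Measurable g) (hh : Measurable h)
    {l m : ℝ} (hl : 0 < l) (hm : 0 < m) (hlm : l + m = 1)
    (hfgh : ∀ x y, f x ^ l * g y ^ m ≤ h (l * x + m * y)) :
    (∫⁻ x, f x) ^ l * (∫⁻ x, g x) ^ m ≤ ∫⁻ x, h x := by
  by_cases hf0 : (∫⁻ x, f x) = 0
  · rw [hf0, ENNReal.zero_rpow_of_pos hl, zero_mul]; exact bot_le
  by_cases hg0 : (∫⁻ x, g x) = 0
  · rw [hg0, ENNReal.zero_rpow_of_pos hm, mul_zero]; exact bot_le
  have hlim : ∀ u : ℝ → ℝ≥0∞, Measurable u →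
      Tendsto (fun n : ℕ => ∫⁻ x, min (u x) (n : ℝ≥0∞)) atTop (𝓝 (∫⁻ x, u x)) := by
    intro u hu
    apply lintegral_tendsto_of_tendsto_of_monotone
    · exact fun n => (hu.min measurable_const).aemeasurable
    · refine Eventually.of_forall fun x => ?_
      intro a b hab
      exact min_le_min le_rfl (by exact_mod_cast hab)
    · refine Eventually.of_forall fun x => ?_
      have h1 : Tendsto (fun n : ℕ => min (u x) (n : ℝ≥0∞)) atTop (𝓝 (min (u x) ∞)) :=
        tendsto_const_nhds.min ENNReal.tendsto_nat_nhds_top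
      simpa using h1
  have hne : ∀ u : ℝ → ℝ≥0∞, (∫⁻ x, u x) ≠ 0 → ∀ n : ℕ, 1 ≤ n →
      (⨆ x, min (u x) (n : ℝ≥0∞)) ≠ 0 := by
    intro u hu n hn h0
    apply hu
    have h1 : ∀ x, u x = 0 := by
      intro x
      have h2 : min (u x) (n : ℝ≥0∞) = 0 := (ENNReal.iSup_eq_zero.1 h0) x
      rcases min_choice (u x) (n : ℝ≥0∞) with h3 | h3
      · rw [← h3]; exact h2
      · rw [h3] at h2
        have : (n : ℝ≥0∞) ≠ 0 := by
          have : n ≠ 0 := by omega
          exact_mod_cast this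
        exact absurd h2 this
    simp [h1]
  have hnt : ∀ (u : ℝ → ℝ≥0∞) (n : ℕ), (⨆ x, min (u x) (n : ℝ≥0∞)) ≠ ∞ := by
    intro u n
    refine ((iSup_le fun x => min_le_right _ _).trans_lt (ENNReal.natCast_lt_top n)).ne
  have hn : ∀ n : ℕ, 1 ≤ n → (∫⁻ x, min (f x) (n : ℝ≥0∞)) ^ l * (∫⁻ x, min (g x) (n : ℝ≥0∞)) ^ m
      ≤ ∫⁻ x, h x := by
    intro n hn
    refine pl_bdd (hf.min measurable_const) (hg.min measurable_const) hh hl hm hlm
      (hne f hf0 n hn) (hnt f n) (hne g hg0 n hn) (hnt g n) ?_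
    intro x y
    refine le_trans ?_ (hfgh x y)
    exact mul_le_mul' (ENNReal.rpow_le_rpow (min_le_left _ _) hl.le)
      (ENNReal.rpow_le_rpow (min_le_left _ _) hm.le)
  have htend : Tendsto (fun n : ℕ => (∫⁻ x, min (f x) (n : ℝ≥0∞)) ^ l
      * (∫⁻ x, min (g x) (n : ℝ≥0∞)) ^ m) atTop (𝓝 ((∫⁻ x, f x) ^ l * (∫⁻ x, g x) ^ m)) := by
    refine ENNReal.Tendsto.mul ((hlim f hf).ennrpow_const l) (Or.inl ?_)
      ((hlim g hg).ennrpow_const m) (Or.inl ?_)
    · simp only [ne_eq, ENNReal.rpow_eq_zero_iff, hf0, false_and, not_lt.2 hl.le, and_false,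
        or_self, not_false_eq_true]
    · simp only [ne_eq, ENNReal.rpow_eq_zero_iff, hg0, false_and, not_lt.2 hm.le, and_false,
        or_self, not_false_eq_true]
  exact le_of_tendsto htend (eventually_atTop.2 ⟨1, hn⟩)

end Pool.Agent.Helper86.LP
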