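import Pool.Agent.Helper86.LP.PrekopaLeindler

open Set MeasureTheory Filter Topology
open scoped ENNReal

namespace Pool.Agent.Helper86.LP

theorem lintegral_gamma {c r : ℝ} (hc : 0 < c) (hr : 0 < r) :
    ∫⁻ v : ℝ, ENNReal.ofReal (Real.exp (c * v - r * Real.exp v))
      = ENNReal.ofReal (Real.Gamma c * r ^ (-c)) := by
  have h1 : ∫⁻ s in Ioi (0 : ℝ), ENNReal.ofReal (s ^ (c - 1) * Real.exp (-(r * s)))
      = ENNReal.ofReal (Real.Gamma c * r ^ (-c)) := by
    have hI := Real.integral_rpow_mul_exp_neg_mul_Ioi hc hr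
    have hpos : 0 < (1 / r) ^ c * Real.Gamma c := by
      have := Real.Gamma_pos_of_pos hc
      positivity
    have hint : IntegrableOn (fun t : ℝ => t ^ (c - 1) * Real.exp (-(r * t))) (Ioi 0) := by
      by_contra hcon
      rw [integral_undef hcon] at hI
      exact hpos.ne hI
    rw [← ofReal_integral_eq_lintegral_ofReal hint, hI]
    · congr 1
      rw [one_div, Real.inv_rpow hr.le, Real.rpow_neg hr.le]
      ring
    · filter_upwards [self_mem_ae_restrict measurableSet_Ioi] with s hs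
      have : (0 : ℝ) < s := hs
      positivity
  rw [← h1, ← Real.range_exp, ← image_univ,
    lintegral_image_eq_lintegral_abs_deriv_mul (f := Real.exp) (f' := Real.exp)
      MeasurableSet.univ (fun x _ => (Real.hasDerivAt_exp x).hasDerivWithinAt)
      Real.exp_injective.injOn, Measure.restrict_univ]
  apply lintegral_congr
  intro v
  rw [← ENNReal.ofReal_mul (abs_nonneg _), abs_of_pos (Real.exp_pos v), ← Real.exp_mul,
    ← mul_assoc, ← Real.exp_add, ← Real.exp_add]
  congr 2
  ring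

theorem ofReal_rpow_neg_eq {c y t : ℝ} (hc : 0 < c) (hy : 0 ≤ y) :
    ENNReal.ofReal ((1 + Real.exp t * y) ^ (-c))
      = ENNReal.ofReal (Real.Gamma c)⁻¹ * ∫⁻ v : ℝ, ENNReal.ofReal (Real.exp (c * v - Real.exp v))
        * ENNReal.ofReal (Real.exp (-(Real.exp (t + v) * y))) := by
  have hr : 0 < 1 + Real.exp t * y := by positivity
  have hG := Real.Gamma_pos_of_pos hc
  have h := lintegral_gamma hc hr
  have h2 : ∀ v : ℝ, ENNReal.ofReal (Real.exp (c * v - Real.exp v))
        * ENNReal.ofReal (Real.exp (-(Real.exp (t + v) * y)))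
      = ENNReal.ofReal (Real.exp (c * v - (1 + Real.exp t * y) * Real.exp v)) := by
    intro v
    rw [← ENNReal.ofReal_mul (Real.exp_pos _).le, ← Real.exp_add, Real.exp_add t v]
    congr 2
    ring
  simp only [h2, h]
  rw [← ENNReal.ofReal_mul (by positivity), ← mul_assoc, inv_mul_cancel₀ hG.ne', one_mul]

variable {Ω : Type*} {ι : Type*}

/-- Log-concavity inequality with weights `l`, `m` for an extended nonnegative function of
finitely many real variables. -/
def LC (l m : ℝ) (Φ : (ι → ℝ) → ℝ≥0∞) : Prop :=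
  ∀ a b : ι → ℝ, Φ a ^ l * Φ b ^ m ≤ Φ (l • a + m • b)

/-- the factor number `i`, of the second kind when `i ∈ S` -/
noncomputable def fac [DecidableEq ι] (c : ι → ℝ) (S : Finset ι) (q : ι → Ω → ℝ) (τ : ι → ℝ)
    (i : ι) (x : Ω) : ℝ :=
  if i ∈ S then (1 + Real.exp (τ i) * q i x) ^ (-c i) else Real.exp (-(Real.exp (τ i) * q i x))

theorem measurable_fac [MeasurableSpace Ω] [DecidableEq ι] {c : ι → ℝ} {S : Finset ι}
    {q : ι → Ω → ℝ} (hqm : ∀ i, Measurable (q i)) (τ : ι → ℝ) (i : ι) :
    Measurable (fac c S q τ i) := by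
  unfold fac
  split_ifs
  · exact (((hqm i).const_mul _).const_add 1).pow_const _
  · exact ((hqm i).const_mul _).neg.exp

theorem lc_step_one [MeasurableSpace Ω] [Fintype ι] [DecidableEq ι] (μ : Measure Ω) [SFinite μ]
    {q : ι → Ω → ℝ}
    (hqm : ∀ i, Measurable (q i)) (hq : ∀ i x, 0 ≤ q i x) {c : ι → ℝ} (hc : ∀ i, 0 < c i)
    {l m : ℝ} (hl : 0 < l) (hm : 0 < m) (hlm : l + m = 1) (S : Finset ι) (l0 : ι) (hl0 : l0 ∉ S)
    (ih : LC l m (fun τ : ι → ℝ => ∫⁻ x, ∏ i, ENNReal.ofReal (fac c S q τ i x) ∂μ)) :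
    LC l m (fun τ : ι → ℝ => ∫⁻ x, ∏ i, ENNReal.ofReal (fac c (insert l0 S) q τ i x) ∂μ) := by
  set R : (ι → ℝ) → Ω → ℝ≥0∞ :=
    fun τ x => ∏ i ∈ Finset.univ.erase l0, ENNReal.ofReal (fac c S q τ i x) with hR
  have hRm : ∀ τ, Measurable (R τ) := fun τ =>
    Finset.measurable_prod _ fun i _ => (measurable_fac hqm τ i).ennreal_ofReal
  set w : ℝ → ℝ≥0∞ := fun v => ENNReal.ofReal (Real.exp (c l0 * v - Real.exp v)) with hw
  have hwm : Measurable w := by fun_prop
  set e : ℝ → Ω → ℝ≥0∞ := fun t x => ENNReal.ofReal (Real.exp (-(Real.exp t * q l0 x))) with he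
  have hem : ∀ t : ℝ, Measurable (fun p : ℝ × Ω => e (t + p.1) p.2) := by
    intro t
    have h1 : Measurable (fun p : ℝ × Ω => Real.exp (t + p.1)) :=
      (measurable_fst.const_add t).exp
    have h2 : Measurable (fun p : ℝ × Ω => q l0 p.2) := (hqm l0).comp measurable_snd
    exact (h1.mul h2).neg.exp.ennreal_ofReal
  have hem1 : ∀ t : ℝ, Measurable (e t) := fun t =>
    ((hqm l0).const_mul _).neg.exp.ennreal_ofReal
  set Φ : (ι → ℝ) → ℝ≥0∞ := fun τ => ∫⁻ x, ∏ i, ENNReal.ofReal (fac c S q τ i x) ∂μ with hΦ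
  set K : ℝ≥0∞ := ENNReal.ofReal (Real.Gamma (c l0))⁻¹ with hK
  have hΦR : ∀ (τ : ι → ℝ) (v : ℝ), Φ (Function.update τ l0 (τ l0 + v))
      = ∫⁻ x, e (τ l0 + v) x * R τ x ∂μ := by
    intro τ v
    simp only [hΦ]
    apply lintegral_congr
    intro x
    rw [← Finset.mul_prod_erase Finset.univ _ (Finset.mem_univ l0)]
    congr 1
    · simp [fac, hl0, he]
    · apply Finset.prod_congr rfl
      intro i hi
      have hne : i ≠ l0 := Finset.ne_of_mem_erase hi
      simp [fac, hne]
  have hrep : ∀ τ : ι → ℝ, ∫⁻ x, ∏ i, ENNReal.ofReal (fac c (insert l0 S) q τ i x) ∂μ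
      = K * ∫⁻ v : ℝ, w v * Φ (Function.update τ l0 (τ l0 + v)) := by
    intro τ
    have h1 : ∀ x, ∏ i, ENNReal.ofReal (fac c (insert l0 S) q τ i x)
        = K * ∫⁻ v, w v * (e (τ l0 + v) x * R τ x) := by
      intro x
      rw [← Finset.mul_prod_erase Finset.univ _ (Finset.mem_univ l0)]
      have h2 : ENNReal.ofReal (fac c (insert l0 S) q τ l0 x)
          = K * ∫⁻ v, w v * e (τ l0 + v) x := by
        simp only [fac, Finset.mem_insert_self, if_true]
        exact ofReal_rpow_neg_eq (hc l0) (hq l0 x)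
      have h3 : ∏ i ∈ Finset.univ.erase l0, ENNReal.ofReal (fac c (insert l0 S) q τ i x)
          = R τ x := by
        apply Finset.prod_congr rfl
        intro i hi
        have hne : i ≠ l0 := Finset.ne_of_mem_erase hi
        simp [fac, hne]
      rw [h2, h3, mul_assoc]
      congr 1
      rw [← lintegral_mul_const]
      · simp only [mul_assoc]
      · exact hwm.mul ((hem (τ l0)).comp (measurable_id.prodMk measurable_const))
    simp only [h1]
    have hjoint : Measurable (fun p : Ω × ℝ => w p.2 * (e (τ l0 + p.2) p.1 * R τ p.1)) := by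
      refine (hwm.comp measurable_snd).mul (Measurable.mul ?_ ((hRm τ).comp measurable_fst))
      exact (hem (τ l0)).comp measurable_swap
    rw [lintegral_const_mul]
    · rw [lintegral_lintegral_swap hjoint.aemeasurable]
      congr 1
      apply lintegral_congr
      intro v
      rw [hΦR, lintegral_const_mul]
      exact (hem1 _).mul (hRm τ)
    · exact hjoint.lintegral_prod_right'
  have hΦm : ∀ τ : ι → ℝ, Measurable (fun v => w v * Φ (Function.update τ l0 (τ l0 + v))) := by
    intro τ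
    simp only [hΦR]
    refine hwm.mul ?_
    have : Measurable (fun p : ℝ × Ω => e (τ l0 + p.1) p.2 * R τ p.2) :=
      (hem (τ l0)).mul ((hRm τ).comp measurable_snd)
    exact this.lintegral_prod_right'
  intro a b
  simp only [hrep]
  have hpl := pl_one (hΦm a) (hΦm b) (hΦm (l • a + m • b)) hl hm hlm (by
    intro v v'
    have hup : l • Function.update a l0 (a l0 + v) + m • Function.update b l0 (b l0 + v')
        = Function.update (l • a + m • b) l0 ((l • a + m • b) l0 + (l * v + m * v')) := by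
      funext i
      by_cases hi : i = l0
      · subst hi
        simp only [Pi.add_apply, Pi.smul_apply, Function.update_self, smul_eq_mul]
        ring
      · simp [Function.update_of_ne hi]
    have h1 := ih (Function.update a l0 (a l0 + v)) (Function.update b l0 (b l0 + v'))
    rw [hup] at h1
    have h2 : w v ^ l * w v' ^ m ≤ w (l * v + m * v') := by
      simp only [hw]
      rw [ENNReal.ofReal_rpow_of_nonneg (Real.exp_pos _).le hl.le,
        ENNReal.ofReal_rpow_of_nonneg (Real.exp_pos _).le hm.le,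
        ← ENNReal.ofReal_mul (by positivity), ← Real.exp_mul, ← Real.exp_mul, ← Real.exp_add]
      apply ENNReal.ofReal_le_ofReal
      apply Real.exp_le_exp.2
      have hconv := convexOn_exp.2 (mem_univ v) (mem_univ v') hl.le hm.le hlm
      simp only [smul_eq_mul] at hconv
      nlinarith
    calc (w v * Φ (Function.update a l0 (a l0 + v))) ^ l
          * (w v' * Φ (Function.update b l0 (b l0 + v'))) ^ m
        = (w v ^ l * w v' ^ m) * (Φ (Function.update a l0 (a l0 + v)) ^ l
          * Φ (Function.update b l0 (b l0 + v')) ^ m) := by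
          rw [ENNReal.mul_rpow_of_nonneg _ _ hl.le, ENNReal.mul_rpow_of_nonneg _ _ hm.le]
          ring
      _ ≤ _ := mul_le_mul' h2 h1)
  have hKt : K ^ l * K ^ m = K := by
    have hG : 0 < (Real.Gamma (c l0))⁻¹ := inv_pos.2 (Real.Gamma_pos_of_pos (hc l0))
    have hK0 : K ≠ 0 := by
      rw [hK]; exact (ENNReal.ofReal_pos.2 hG).ne'
    rw [← ENNReal.rpow_add _ _ hK0 ENNReal.ofReal_ne_top, hlm, ENNReal.rpow_one]
  calc (K * ∫⁻ v, w v * Φ (Function.update a l0 (a l0 + v))) ^ l
        * (K * ∫⁻ v, w v * Φ (Function.update b l0 (b l0 + v))) ^ m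
      = (K ^ l * K ^ m) * ((∫⁻ v, w v * Φ (Function.update a l0 (a l0 + v))) ^ l
        * (∫⁻ v, w v * Φ (Function.update b l0 (b l0 + v))) ^ m) := by
        rw [ENNReal.mul_rpow_of_nonneg _ _ hl.le, ENNReal.mul_rpow_of_nonneg _ _ hm.le]
        ring
    _ ≤ _ := by
        rw [hKt]
        exact mul_le_mul' le_rfl hpl

/-- From products of exponentials to products of powers. -/
theorem lc_step [MeasurableSpace Ω] [Fintype ι] (μ : Measure Ω) [SFinite μ] {q : ι → Ω → ℝ}
    (hqm : ∀ i, Measurable (q i)) (hq : ∀ i x, 0 ≤ q i x) {c : ι → ℝ} (hc : ∀ i, 0 < c i)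
    {l m : ℝ} (hl : 0 < l) (hm : 0 < m) (hlm : l + m = 1)
    (h0 : LC l m (fun τ : ι → ℝ =>
      ∫⁻ x, ∏ i, ENNReal.ofReal (Real.exp (-(Real.exp (τ i) * q i x))) ∂μ)) :
    LC l m (fun τ : ι → ℝ =>
      ∫⁻ x, ∏ i, ENNReal.ofReal ((1 + Real.exp (τ i) * q i x) ^ (-c i)) ∂μ) := by
  classical
  have key : ∀ S : Finset ι, LC l m (fun τ : ι → ℝ =>
      ∫⁻ x, ∏ i, ENNReal.ofReal (fac c S q τ i x) ∂μ) := by
    intro S
    induction S using Finset.induction_on with
    | empty => simpa [fac] using h0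
    | insert l0 S hl0 ih => exact lc_step_one μ hqm hq hc hl hm hlm S l0 hl0 ih
  simpa [fac] using key Finset.univ

end Pool.Agent.Helper86.LP
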