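import Mathlib

open Set MeasureTheory Filter Topology
open scoped ENNReal

namespace Pool.Agent.Helper86.LP

/-- `log (1 + y σ^(-β))` -/
noncomputable def phi (β y σ : ℝ) : ℝ := Real.log (1 + y * σ ^ (-β))

theorem phi_nonneg {β y σ : ℝ} (hy : 0 ≤ y) (hσ : 0 ≤ σ) : 0 ≤ phi β y σ := by
  unfold phi
  apply Real.log_nonneg
  have : 0 ≤ y * σ ^ (-β) := mul_nonneg hy (Real.rpow_nonneg hσ _)
  linarith

theorem phi_anti {β y : ℝ} (hβ : 0 < β) (hy : 0 ≤ y) : AntitoneOn (phi β y) (Ioi 0) := by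
  intro s hs t ht hst
  have hs0 : (0 : ℝ) < s := hs
  have ht0 : (0 : ℝ) < t := ht
  unfold phi
  have h1 : t ^ (-β) ≤ s ^ (-β) := Real.rpow_le_rpow_of_nonpos hs0 hst (by linarith)
  have h2 : 0 ≤ y * t ^ (-β) := mul_nonneg hy (Real.rpow_nonneg ht0.le _)
  apply Real.log_le_log (by linarith)
  have := mul_le_mul_of_nonneg_left h1 hy
  linarith

theorem phi_le_tail {β y σ : ℝ} (hy : 0 ≤ y) (hσ : 0 < σ) : phi β y σ ≤ y * σ ^ (-β) := by
  unfold phi
  have h2 : 0 ≤ y * σ ^ (-β) := mul_nonneg hy (Real.rpow_nonneg hσ.le _)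
  have := Real.log_le_sub_one_of_pos (show 0 < 1 + y * σ ^ (-β) by linarith)
  linarith

theorem phi_le_head {β y σ : ℝ} (hβ : 0 < β) (hy : 0 ≤ y) (hσ : 0 < σ) (hσ1 : σ ≤ 1) :
    phi β y σ ≤ (Real.log (1 + y) + 2 * β) * σ ^ (-(1 / 2) : ℝ) := by
  unfold phi
  have h0 : 1 ≤ σ ^ (-β) := Real.one_le_rpow_of_pos_of_le_one_of_nonpos hσ hσ1 (by linarith)
  have h1 : 1 + y * σ ^ (-β) ≤ (1 + y) * σ ^ (-β) := by nlinarith
  have h2 : 0 < 1 + y * σ ^ (-β) := by positivity
  have h3 : Real.log (1 + y * σ ^ (-β)) ≤ Real.log (1 + y) + β * Real.log σ⁻¹ := by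
    refine (Real.log_le_log h2 h1).trans ?_
    rw [Real.log_mul (by positivity) (by positivity), Real.log_rpow hσ, Real.log_inv]
    linarith
  have h4 : Real.log σ⁻¹ ≤ (σ⁻¹) ^ (1 / 2 : ℝ) / (1 / 2) :=
    Real.log_le_rpow_div (inv_nonneg.2 hσ.le) (by norm_num)
  have h5 : (σ⁻¹) ^ (1 / 2 : ℝ) = σ ^ (-(1 / 2) : ℝ) := by
    rw [Real.inv_rpow hσ.le, ← Real.rpow_neg hσ.le]
  have h6 : 1 ≤ σ ^ (-(1 / 2) : ℝ) :=
    Real.one_le_rpow_of_pos_of_le_one_of_nonpos hσ hσ1 (by norm_num)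
  have h7 : 0 ≤ Real.log (1 + y) := Real.log_nonneg (by linarith)
  rw [h5] at h4
  nlinarith

theorem phi_measurable (β y : ℝ) : Measurable (phi β y) := by
  unfold phi
  exact ((measurable_id.pow_const (-β)).const_mul y |>.const_add 1).log

theorem phi_integrableOn {β y : ℝ} (hβ : 1 < β) (hy : 0 ≤ y) : IntegrableOn (phi β y) (Ioi 0) := by
  have hβ0 : 0 < β := by linarith
  rw [← Ioc_union_Ioi_eq_Ioi (zero_le_one' ℝ)]
  apply IntegrableOn.union
  · have h1 : IntegrableOn (fun σ : ℝ => (Real.log (1 + y) + 2 * β) * σ ^ (-(1 / 2) : ℝ))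
        (Ioc 0 1) := by
      have := (intervalIntegral.intervalIntegrable_rpow' (a := 0) (b := 1)
        (r := -(1 / 2)) (by norm_num))
      rw [intervalIntegrable_iff_integrableOn_Ioc_of_le zero_le_one] at this
      exact this.const_mul _
    refine Integrable.mono' h1 (phi_measurable β y).aestronglyMeasurable ?_
    filter_upwards [self_mem_ae_restrict measurableSet_Ioc] with σ hσ
    rw [Real.norm_of_nonneg (phi_nonneg hy hσ.1.le)]
    exact phi_le_head hβ0 hy hσ.1 hσ.2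
  · have h1 : IntegrableOn (fun σ : ℝ => y * σ ^ (-β)) (Ioi 1) :=
      (integrableOn_Ioi_rpow_of_lt (by linarith) one_pos).const_mul _
    refine Integrable.mono' h1 (phi_measurable β y).aestronglyMeasurable ?_
    filter_upwards [self_mem_ae_restrict measurableSet_Ioi] with σ hσ
    have hσ0 : (0 : ℝ) < σ := lt_trans one_pos hσ
    rw [Real.norm_of_nonneg (phi_nonneg hy hσ0.le)]
    exact phi_le_tail hy hσ0

/-- the constant -/
noncomputable def CC (β : ℝ) : ℝ := ∫ σ in Ioi 0, phi β 1 σ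

theorem CC_pos {β : ℝ} (hβ : 1 < β) : 0 < CC β := by
  have hβ0 : 0 < β := by linarith
  have h1 : ∫ σ in Ioc (0 : ℝ) 1, phi β 1 σ ≤ CC β := by
    apply setIntegral_mono_set (phi_integrableOn hβ zero_le_one)
    · filter_upwards [self_mem_ae_restrict measurableSet_Ioi] with σ hσ
      exact phi_nonneg zero_le_one (le_of_lt hσ)
    · exact (Ioc_subset_Ioi_self).eventuallyLE
  have h2 : Real.log 2 ≤ ∫ σ in Ioc (0 : ℝ) 1, phi β 1 σ := by
    have h3 : ∫ σ in Ioc (0 : ℝ) 1, Real.log 2 = Real.log 2 := by simp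
    rw [← h3]
    refine setIntegral_mono_on (by simp) ((phi_integrableOn hβ zero_le_one).mono_set
      Ioc_subset_Ioi_self) measurableSet_Ioc ?_
    intro σ hσ
    unfold phi
    apply Real.log_le_log (by norm_num)
    have h0 : 1 ≤ σ ^ (-β) :=
      Real.one_le_rpow_of_pos_of_le_one_of_nonpos hσ.1 hσ.2 (by linarith)
    linarith
  have : 0 < Real.log 2 := Real.log_pos (by norm_num)
  linarith

theorem phi_scale {β y : ℝ} (hβ : 1 < β) (hy : 0 < y) :
    ∫ σ in Ioi 0, phi β y σ = y ^ (1 / β) * CC β := by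
  have hβ0 : 0 < β := by linarith
  have hb : 0 < y ^ (1 / β) := Real.rpow_pos_of_pos hy _
  have h1 := integral_comp_mul_left_Ioi (phi β y) 0 hb
  rw [mul_zero, smul_eq_mul] at h1
  have h2 : ∫ σ in Ioi (0 : ℝ), phi β y (y ^ (1 / β) * σ) = CC β := by
    apply setIntegral_congr_fun measurableSet_Ioi
    intro σ hσ
    have hσ0 : (0 : ℝ) < σ := hσ
    simp only [phi]
    congr 2
    rw [Real.mul_rpow hb.le hσ0.le, ← Real.rpow_mul hy.le]
    have : 1 / β * -β = -1 := by field_simp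
    rw [this, Real.rpow_neg_one, ← mul_assoc, mul_inv_cancel₀ hy.ne']
  rw [h2] at h1
  rw [h1, ← mul_assoc, mul_inv_cancel₀ hb.ne', one_mul]

theorem riemann_tendsto {β y : ℝ} (hβ : 1 < β) (hy : 0 < y) :
    Tendsto (fun N : ℕ => (1 / ((N : ℝ) + 1)) *
      ∑ j ∈ Finset.range ((N + 1) ^ 2), phi β y (((j : ℝ) + 1) / ((N : ℝ) + 1))) atTop
      (𝓝 (y ^ (1 / β) * CC β)) := by
  have hβ0 : 0 < β := by linarith
  have hint := phi_integrableOn hβ hy.le
  set L : ℕ → ℝ := fun N => ∫ σ in Ioc (1 / ((N : ℝ) + 1)) ((N : ℝ) + 1), phi β y σ with hL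
  have hLlim : Tendsto L atTop (𝓝 (y ^ (1 / β) * CC β)) := by
    rw [← phi_scale hβ hy]
    have hU : (⋃ N : ℕ, Ioc (1 / ((N : ℝ) + 1)) ((N : ℝ) + 1)) = Ioi 0 := by
      ext σ
      simp only [mem_iUnion, mem_Ioc, mem_Ioi]
      constructor
      · rintro ⟨N, h1, _⟩
        exact lt_trans (by positivity) h1
      · intro hσ
        obtain ⟨N1, hN1⟩ := exists_nat_one_div_lt hσ
        obtain ⟨N2, hN2⟩ := exists_nat_gt σ
        refine ⟨max N1 N2, lt_of_le_of_lt ?_ hN1, ?_⟩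
        · apply one_div_le_one_div_of_le (by positivity)
          have : (N1 : ℝ) ≤ ((max N1 N2 : ℕ) : ℝ) := by exact_mod_cast le_max_left _ _
          linarith
        · have : (N2 : ℝ) ≤ ((max N1 N2 : ℕ) : ℝ) := by exact_mod_cast le_max_right _ _
          linarith
    have := tendsto_setIntegral_of_monotone (μ := volume) (f := phi β y)
      (s := fun N : ℕ => Ioc (1 / ((N : ℝ) + 1)) ((N : ℝ) + 1)) (fun N => measurableSet_Ioc) ?_
      (by rw [hU]; exact hint)
    · rw [hU] at this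
      exact this
    · intro M N hMN
      have hMN' : (M : ℝ) ≤ N := by exact_mod_cast hMN
      apply Ioc_subset_Ioc
      · apply one_div_le_one_div_of_le (by positivity)
        linarith
      · linarith
  -- comparison
  have hcomp : ∀ N : ℕ, 1 ≤ N → L N ≤ (1 / ((N : ℝ) + 1)) *
      ∑ j ∈ Finset.range ((N + 1) ^ 2), phi β y (((j : ℝ) + 1) / ((N : ℝ) + 1)) ∧
      (1 / ((N : ℝ) + 1)) *
      ∑ j ∈ Finset.range ((N + 1) ^ 2), phi β y (((j : ℝ) + 1) / ((N : ℝ) + 1))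
        ≤ L N + (1 / ((N : ℝ) + 1)) * phi β y (1 / ((N : ℝ) + 1)) := by
    intro N hN
    set M : ℝ := (N : ℝ) + 1 with hM
    have hM0 : 0 < M := by positivity
    have hM1 : 1 ≤ M := by rw [hM]; linarith [(Nat.cast_nonneg N : (0 : ℝ) ≤ N)]
    obtain ⟨K, hK⟩ : ∃ K : ℕ, (N + 1) ^ 2 = K + 1 := ⟨(N + 1) ^ 2 - 1, by
      have : 0 < (N + 1) ^ 2 := by positivity
      omega⟩
    have hKM : (1 : ℝ) + K = M ^ 2 := by
      have h1 : (((N + 1) ^ 2 : ℕ) : ℝ) = ((K + 1 : ℕ) : ℝ) := by rw [hK]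
      push_cast at h1
      rw [hM]
      linarith
    set f : ℝ → ℝ := fun x => phi β y (x / M) with hf
    have hfanti : AntitoneOn f (Ioi 0) := by
      intro s hs t ht hst
      exact phi_anti hβ0 hy.le (div_pos hs hM0) (div_pos ht hM0)
        (div_le_div_of_nonneg_right hst hM0.le)
    have hfpos : ∀ x, 0 < x → 0 ≤ f x := fun x hx => phi_nonneg hy.le (by positivity)
    have hsum : ∑ j ∈ Finset.range ((N + 1) ^ 2), phi β y (((j : ℝ) + 1) / M)
        = ∑ j ∈ Finset.range (K + 1), f (1 + (j : ℝ)) := by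
      rw [hK]
      apply Finset.sum_congr rfl
      intro j _
      simp only [hf]
      rw [add_comm]
    have hI : ∫ x in (1 : ℝ)..1 + K, f x = M * L N := by
      simp only [hf]
      rw [intervalIntegral.integral_comp_div _ hM0.ne', hKM, smul_eq_mul,
        intervalIntegral.integral_of_le]
      · have h5 : M ^ 2 / M = M := by field_simp
        rw [h5]
      · apply div_le_div_of_nonneg_right _ hM0.le
        nlinarith
    have hsub : ∀ a : ℕ, Icc (1 : ℝ) (1 + a) ⊆ Ioi 0 := fun a x hx => lt_of_lt_of_le one_pos hx.1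
    have h1 : ∑ j ∈ Finset.range K, f (1 + ((j + 1 : ℕ) : ℝ)) ≤ M * L N := by
      rw [← hI]
      exact (hfanti.mono (hsub K)).sum_le_integral
    have h2 : M * L N ≤ ∑ j ∈ Finset.range K, f (1 + (j : ℝ)) := by
      rw [← hI]
      exact (hfanti.mono (hsub K)).integral_le_sum
    constructor
    · rw [hsum, one_div, inv_mul_eq_div, le_div_iff₀ hM0, mul_comm]
      refine h2.trans ?_
      rw [Finset.sum_range_succ]
      have := hfpos (1 + K) (by positivity)
      linarith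
    · rw [hsum, Finset.sum_range_succ']
      have h3 : f (1 + ((0 : ℕ) : ℝ)) = phi β y (1 / M) := by simp [hf]
      rw [h3]
      have h4 : (1 / M) * (∑ j ∈ Finset.range K, f (1 + ((j + 1 : ℕ) : ℝ))) ≤ L N := by
        rw [one_div, inv_mul_eq_div, div_le_iff₀ hM0, mul_comm (L N)]
        exact h1
      rw [mul_add]
      linarith
  have herr : Tendsto (fun N : ℕ => (1 / ((N : ℝ) + 1)) * phi β y (1 / ((N : ℝ) + 1))) atTop
      (𝓝 0) := by
    have hz : Tendsto (fun N : ℕ => (Real.log (1 + y) + 2 * β) * (1 / ((N : ℝ) + 1)) ^ (1 / 2 : ℝ))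
        atTop (𝓝 ((Real.log (1 + y) + 2 * β) * (0 : ℝ) ^ (1 / 2 : ℝ))) := by
      apply Tendsto.const_mul
      exact (tendsto_one_div_add_atTop_nhds_zero_nat).rpow_const (Or.inr (by norm_num))
    rw [Real.zero_rpow (by norm_num), mul_zero] at hz
    refine squeeze_zero ?_ ?_ hz
    · intro N
      have := phi_nonneg (β := β) hy.le (show (0 : ℝ) ≤ 1 / ((N : ℝ) + 1) by positivity)
      positivity
    · intro N
      have hσ : (0 : ℝ) < 1 / ((N : ℝ) + 1) := by positivity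
      have hσ1 : 1 / ((N : ℝ) + 1) ≤ 1 := by
        rw [div_le_one (by positivity)]
        linarith [(Nat.cast_nonneg N : (0 : ℝ) ≤ N)]
      have h1 := phi_le_head hβ0 hy.le hσ hσ1
      have h2 : (1 / ((N : ℝ) + 1)) ^ (1 / 2 : ℝ)
          = (1 / ((N : ℝ) + 1)) * (1 / ((N : ℝ) + 1)) ^ (-(1 / 2) : ℝ) := by
        conv_rhs => rw [← Real.rpow_one_add' hσ.le (by norm_num)]
        norm_num
      rw [h2]
      calc (1 / ((N : ℝ) + 1)) * phi β y (1 / ((N : ℝ) + 1))
          ≤ (1 / ((N : ℝ) + 1)) *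
            ((Real.log (1 + y) + 2 * β) * (1 / ((N : ℝ) + 1)) ^ (-(1 / 2) : ℝ)) :=
            mul_le_mul_of_nonneg_left h1 hσ.le
        _ = _ := by ring
  refine tendsto_of_tendsto_of_tendsto_of_le_of_le' hLlim
    (show Tendsto (fun N => L N + (1 / ((N : ℝ) + 1)) * phi β y (1 / ((N : ℝ) + 1))) atTop
      (𝓝 (y ^ (1 / β) * CC β)) by simpa using hLlim.add herr) ?_ ?_
  · filter_upwards [eventually_ge_atTop 1] with N hN using (hcomp N hN).1
  · filter_upwards [eventually_ge_atTop 1] with N hN using (hcomp N hN).2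

end Pool.Agent.Helper86.LP
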