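import Pool.Agent.Helper86.LP.Base

open Set MeasureTheory Filter Topology Module
open scoped ENNReal

namespace Pool.Agent.Helper86.LP

variable {n : ℕ}

theorem Phi_tendsto (H : Submodule ℝ (EuclideanSpace ℝ (Fin n))) {P : ℝ} (hP : 1 ≤ P)
    {u : ℕ → ℝ} (hu1 : ∀ j, 1 ≤ u j) (hu : Tendsto u atTop (𝓝 P)) (τ : Fin n → ℝ) :
    Tendsto (fun j => Phi (u j) H τ) atTop (𝓝 (Phi P H τ)) := by
  have hb := Phi_ne_top H le_rfl τ
  set K : ℝ≥0∞ := ∏ i : Fin n, ENNReal.ofReal (Real.exp (Real.exp (τ i))) with hK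
  have hKt : K ≠ ∞ := by
    rw [hK]
    exact ENNReal.prod_ne_top fun i _ => ENNReal.ofReal_ne_top
  have hm1 : Measurable (fun x : H => ∏ i, ENNReal.ofReal
      (Real.exp (-(Real.exp (τ i) * |(x : EuclideanSpace ℝ (Fin n)) i| ^ (1 : ℝ))))) :=
    Finset.measurable_prod _ fun i _ =>
      ((measurable_coord H i 1).const_mul _).neg.exp.ennreal_ofReal
  unfold Phi
  apply tendsto_lintegral_of_dominated_convergence
    (bound := fun x : H => K * ∏ i, ENNReal.ofReal
      (Real.exp (-(Real.exp (τ i) * |(x : EuclideanSpace ℝ (Fin n)) i| ^ (1 : ℝ)))))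
  · intro j
    exact Finset.measurable_prod _ fun i _ =>
      ((measurable_coord H i (u j)).const_mul _).neg.exp.ennreal_ofReal
  · intro j
    refine Eventually.of_forall fun x => ?_
    simp only [hK]
    rw [← Finset.prod_mul_distrib]
    apply Finset.prod_le_prod'
    intro i _
    rw [← ENNReal.ofReal_mul (Real.exp_pos _).le, ← Real.exp_add]
    apply ENNReal.ofReal_le_ofReal
    apply Real.exp_le_exp.2
    set y := |(x : EuclideanSpace ℝ (Fin n)) i| with hy
    have hy0 : 0 ≤ y := abs_nonneg _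
    have h1 : y - 1 ≤ y ^ (u j) := by
      rcases le_or_gt y 1 with h | h
      · have := Real.rpow_nonneg hy0 (u j)
        linarith
      · have h2 : y ≤ y ^ (u j) := by
          conv_lhs => rw [← Real.rpow_one y]
          exact Real.rpow_le_rpow_of_exponent_le h.le (hu1 j)
        linarith
    rw [Real.rpow_one]
    have := mul_le_mul_of_nonneg_left h1 (Real.exp_pos (τ i)).le
    linarith
  · rw [lintegral_const_mul _ hm1]
    exact ENNReal.mul_ne_top hKt hb
  · refine Eventually.of_forall fun x => ?_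
    have h1 : Tendsto (fun j => ENNReal.ofReal (∏ i, Real.exp
        (-(Real.exp (τ i) * |(x : EuclideanSpace ℝ (Fin n)) i| ^ (u j))))) atTop
        (𝓝 (ENNReal.ofReal (∏ i, Real.exp
        (-(Real.exp (τ i) * |(x : EuclideanSpace ℝ (Fin n)) i| ^ P))))) := by
      apply ENNReal.tendsto_ofReal
      apply tendsto_finsetProd
      intro i _
      apply (Real.continuous_exp.tendsto _).comp
      apply Tendsto.neg
      apply Tendsto.const_mul
      have hc : ContinuousAt (fun r : ℝ => |(x : EuclideanSpace ℝ (Fin n)) i| ^ r) P :=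
        Real.continuousAt_const_rpow' (by linarith)
      exact hc.tendsto.comp hu
    rw [ENNReal.ofReal_prod_of_nonneg (fun _ _ => (Real.exp_pos _).le)] at h1
    refine h1.congr fun j => ?_
    rw [ENNReal.ofReal_prod_of_nonneg (fun _ _ => (Real.exp_pos _).le)]

theorem isLogConcave_of_tendsto (H : Submodule ℝ (EuclideanSpace ℝ (Fin n))) {P : ℝ}
    (hP : 1 ≤ P) {u : ℕ → ℝ} (hu1 : ∀ j, 1 ≤ u j) (hu : Tendsto u atTop (𝓝 P))
    (h : ∀ j, IsLogConcave (sectionVolume (u j) H)) : IsLogConcave (sectionVolume P H) := by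
  rw [isLogConcave_iff hP]
  intro l m hl hm hlm a b
  have hfin : ∀ τ, Phi P H τ ≠ ∞ := fun τ => Phi_ne_top H hP τ
  have hL : Tendsto (fun j => Phi (u j) H a ^ l * Phi (u j) H b ^ m) atTop
      (𝓝 (Phi P H a ^ l * Phi P H b ^ m)) := by
    refine ENNReal.Tendsto.mul ((Phi_tendsto H hP hu1 hu a).ennrpow_const l) (Or.inr ?_)
      ((Phi_tendsto H hP hu1 hu b).ennrpow_const m) (Or.inr ?_)
    · exact ENNReal.rpow_ne_top_of_nonneg hm.le (hfin b)
    · exact ENNReal.rpow_ne_top_of_nonneg hl.le (hfin a)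
  refine le_of_tendsto_of_tendsto' hL (Phi_tendsto H hP hu1 hu (l • a + m • b)) fun j => ?_
  exact (isLogConcave_iff (hu1 j) H).1 (h j) l m hl hm hlm a b

/-- For each subspace the exponents for which the section function is log-concave form a
closed initial interval. -/
theorem threshold (H : Submodule ℝ (EuclideanSpace ℝ (Fin n))) :
    ∃ P : EReal, ∀ p : ℝ, 1 ≤ p → (IsLogConcave (sectionVolume p H) ↔ (p : EReal) ≤ P) := by
  set S : Set ℝ := {p | 1 ≤ p ∧ IsLogConcave (sectionVolume p H)} with hS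
  have h1S : (1 : ℝ) ∈ S := ⟨le_rfl, isLogConcave_of_lt_two le_rfl (by norm_num) H⟩
  by_cases hbdd : BddAbove S
  · refine ⟨((sSup S : ℝ) : EReal), fun p hp => ?_⟩
    rw [EReal.coe_le_coe_iff]
    constructor
    · intro h
      exact le_csSup hbdd ⟨hp, h⟩
    · intro hle
      obtain ⟨u, -, hu, huS⟩ := exists_seq_tendsto_sSup ⟨1, h1S⟩ hbdd
      rcases hle.lt_or_eq with hlt | heq
      · obtain ⟨q, hqS, hpq⟩ := exists_lt_of_lt_csSup ⟨1, h1S⟩ hlt
        exact isLogConcave_of_lt hp hpq H hqS.2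
      · rw [heq] at hp ⊢
        exact isLogConcave_of_tendsto H hp (fun j => (huS j).1) hu fun j => (huS j).2
  · refine ⟨⊤, fun p hp => ⟨fun _ => le_top, fun _ => ?_⟩⟩
    rw [not_bddAbove_iff] at hbdd
    obtain ⟨q, hqS, hpq⟩ := hbdd p
    exact isLogConcave_of_lt hp hpq H hqS.2

end Pool.Agent.Helper86.LP
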